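import Mathlib

/-!
# The ranks of Borodin, Kostochka and Woodall for bipartite multigraphs

The edge `e` joins the left vertex `u e` and the right vertex `w e`.
-/

set_option autoImplicit false

namespace Pool.Agent.H8.Cwb

open Finset

/-- A form of the theorem of Cantor, Schröder and Bernstein (Mendelsohn and Dulmage). -/
theorem csb {ι α : Type} (R : ι → α → Prop) (f : ι → α) (hf : Function.Injective f)
    (hfR : ∀ x, R x (f x)) (Y : Set α) (g : Y → ι) (hg : Function.Injective g)
    (hgR : ∀ y : Y, R (g y) y) :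
    ∃ h : ι → α, Function.Injective h ∧ (∀ x, R x (h x)) ∧ ∀ y ∈ Y, ∃ x, h x = y := by
  classical
  let F : Set ι →o Set ι := ⟨fun Z => (g '' {y | (y : α) ∉ f '' Z})ᶜ, by
    intro Z Z' h
    apply Set.compl_subset_compl.2
    apply Set.image_mono
    intro y hy hy'
    exact hy (Set.image_mono h hy')⟩
  obtain ⟨Z, hZ⟩ : ∃ Z : Set ι, (g '' {y | (y : α) ∉ f '' Z})ᶜ = Z := ⟨F.lfp, F.map_lfp⟩
  have key : ∀ x, x ∉ Z → ∃ y : Y, (y : α) ∉ f '' Z ∧ g y = x := by
    intro x hx
    rw [← hZ, Set.mem_compl_iff, not_not] at hx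
    obtain ⟨y, hy, rfl⟩ := hx
    exact ⟨y, hy, rfl⟩
  choose k hk1 hk2 using key
  let h : ι → α := fun x => if hx : x ∈ Z then f x else (k x hx : α)
  have h1 : ∀ x (hx : x ∈ Z), h x = f x := fun x hx => dif_pos hx
  have h2 : ∀ x (hx : x ∉ Z), h x = (k x hx : α) := fun x hx => dif_neg hx
  refine ⟨h, ?_, ?_, ?_⟩
  · intro x y hxy
    by_cases hx : x ∈ Z
    · by_cases hy : y ∈ Z
      · rw [h1 x hx, h1 y hy] at hxy
        exact hf hxy
      · rw [h1 x hx, h2 y hy] at hxy
        exact absurd ⟨x, hx, hxy⟩ (hk1 y hy)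
    · by_cases hy : y ∈ Z
      · rw [h2 x hx, h1 y hy] at hxy
        exact absurd ⟨y, hy, hxy.symm⟩ (hk1 x hx)
      · rw [h2 x hx, h2 y hy] at hxy
        rw [← hk2 x hx, ← hk2 y hy, Subtype.ext hxy]
  · intro x
    by_cases hx : x ∈ Z
    · rw [h1 x hx]
      exact hfR x
    · rw [h2 x hx]
      have := hgR (k x hx)
      rwa [hk2 x hx] at this
  · intro y hy
    by_cases h3 : y ∈ f '' Z
    · obtain ⟨x, hx, rfl⟩ := h3
      exact ⟨x, h1 x hx⟩
    · have h4 : g ⟨y, hy⟩ ∉ Z := by
        rw [← hZ, Set.mem_compl_iff, not_not]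
        exact ⟨⟨y, hy⟩, h3, rfl⟩
      refine ⟨g ⟨y, hy⟩, ?_⟩
      rw [h2 _ h4]
      have := hg (hk2 _ h4)
      rw [this]

section

variable {U W E : Type} [DecidableEq U] [DecidableEq W] [DecidableEq E]

/-- the degree of a vertex -/
def dg {U E : Type} [DecidableEq U] (u : E → U) (S : Finset E) (x : U) : ℕ :=
  (S.filter fun e => u e = x).card

/-- the neighbours of a vertex -/
def nb (u : E → U) (w : E → W) (S : Finset E) (x : U) : Finset W :=
  (S.filter fun e => u e = x).image w

theorem mem_nb {u : E → U} {w : E → W} {S : Finset E} {x : U} {y : W} :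
    y ∈ nb u w S x ↔ ∃ e ∈ S, u e = x ∧ w e = y := by
  simp only [nb, mem_image, mem_filter, and_assoc]

/-- Hall's condition for vertices of maximum degree. -/
theorem hall_reg (u : E → U) (w : E → W) (S : Finset E) (D : ℕ) (hD : 1 ≤ D)
    (hw : ∀ y, dg w S y ≤ D) (A : Finset U) (hA : ∀ x ∈ A, dg u S x = D) :
    A.card ≤ (A.biUnion (nb u w S)).card := by
  have h1 : (S.filter fun e => u e ∈ A).card = D * A.card := by
    rw [card_eq_sum_card_fiberwise (f := u) (t := A) (fun e he =>
      mem_coe.2 (mem_filter.1 (mem_coe.1 he)).2)]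
    rw [sum_congr rfl (g := fun _ => D)]
    · rw [sum_const, smul_eq_mul, mul_comm]
    · intro x hx
      rw [← hA x hx, dg, filter_filter]
      congr 1
      ext e
      simp only [mem_filter]
      constructor
      · rintro ⟨h1, _, h3⟩
        exact ⟨h1, h3⟩
      · rintro ⟨h1, h3⟩
        exact ⟨h1, h3 ▸ hx, h3⟩
  have h2 : (S.filter fun e => u e ∈ A).card ≤ D * (A.biUnion (nb u w S)).card := by
    rw [card_eq_sum_card_fiberwise (f := w) (t := A.biUnion (nb u w S)) (fun e he => by
      have he := mem_filter.1 (mem_coe.1 he)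
      exact mem_coe.2 (mem_biUnion.2 ⟨u e, he.2, mem_nb.2 ⟨e, he.1, rfl, rfl⟩⟩))]
    calc ∑ y ∈ A.biUnion (nb u w S), (((S.filter fun e => u e ∈ A).filter fun e => w e = y).card)
        ≤ ∑ y ∈ A.biUnion (nb u w S), D := by
          apply sum_le_sum
          intro y _
          refine le_trans (card_le_card ?_) (hw y)
          exact filter_subset_filter _ (filter_subset _ _)
      _ = D * (A.biUnion (nb u w S)).card := by rw [sum_const, smul_eq_mul, mul_comm]
  rw [h1] at h2
  exact Nat.le_of_mul_le_mul_left h2 hD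

/-- A matching which is good for the left side. -/
def GoodM (u : E → U) (w : E → W) (S : Finset E) (D : ℕ) (M : Finset E) : Prop :=
  M ⊆ S ∧ M.Nonempty ∧ (∀ e ∈ M, ∀ f ∈ M, (u e = u f ∨ w e = w f) → e = f) ∧
    (∀ e ∈ M, dg u S (u e) = D) ∧
    ∀ e ∈ S, (∃ f ∈ M, u f = u e) → dg w S (w e) = D → ∃ f ∈ M, w f = w e

/-- From an injection to a matching. -/
theorem goodM_of (u : E → U) (w : E → W) (S : Finset E) (D : ℕ) (A : Finset U)
    (hA : A.Nonempty) (hAD : ∀ x ∈ A, dg u S x = D) (h : A → W) (hh : Function.Injective h)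
    (hR : ∀ x : A, ∃ e ∈ S, u e = x ∧ w e = h x)
    (hcov : ∀ e ∈ S, u e ∈ A → dg w S (w e) = D → ∃ x, h x = w e) :
    ∃ M, GoodM u w S D M := by
  choose k hk1 hk2 hk3 using hR
  refine ⟨univ.image k, ?_, ?_, ?_, ?_, ?_⟩
  · intro e he
    obtain ⟨x, -, rfl⟩ := mem_image.1 he
    exact hk1 x
  · obtain ⟨x, hx⟩ := hA
    exact ⟨k ⟨x, hx⟩, mem_image_of_mem _ (mem_univ _)⟩
  · intro e he f hf h1
    obtain ⟨x, -, rfl⟩ := mem_image.1 he
    obtain ⟨y, -, rfl⟩ := mem_image.1 hf
    rw [hk2, hk2, hk3, hk3] at h1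
    rcases h1 with h1 | h1
    · rw [Subtype.ext h1]
    · rw [hh h1]
  · intro e he
    obtain ⟨x, -, rfl⟩ := mem_image.1 he
    rw [hk2]
    exact hAD x x.2
  · rintro e he ⟨f, hf, hfe⟩ hd
    obtain ⟨x, -, rfl⟩ := mem_image.1 hf
    rw [hk2] at hfe
    obtain ⟨y, hy⟩ := hcov e he (hfe ▸ x.2) hd
    exact ⟨k y, mem_image_of_mem _ (mem_univ _), by rw [hk3, hy]⟩

theorem exists_goodM (u : E → U) (w : E → W) (S : Finset E) (D : ℕ) (hD : 1 ≤ D)
    (hu : ∀ x, dg u S x ≤ D) (hw : ∀ y, dg w S y ≤ D)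
    (hatt : (∃ x, dg u S x = D) ∨ ∃ y, dg w S y = D) :
    (∃ M, GoodM u w S D M) ∨ ∃ M, GoodM w u S D M := by
  classical
  let UD : Finset U := (S.image u).filter fun x => dg u S x = D
  let WD : Finset W := (S.image w).filter fun y => dg w S y = D
  have hUD : ∀ x, x ∈ UD ↔ dg u S x = D := by
    intro x
    constructor
    · intro h
      exact (mem_filter.1 h).2
    · intro h
      refine mem_filter.2 ⟨?_, h⟩
      have h1 : 0 < (S.filter fun e => u e = x).card := by
        have : (S.filter fun e => u e = x).card = D := h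
        omega
      obtain ⟨e, he⟩ := card_pos.1 h1
      exact mem_image.2 ⟨e, (mem_filter.1 he).1, (mem_filter.1 he).2⟩
  have hWD : ∀ y, y ∈ WD ↔ dg w S y = D := by
    intro y
    constructor
    · intro h
      exact (mem_filter.1 h).2
    · intro h
      refine mem_filter.2 ⟨?_, h⟩
      have h1 : 0 < (S.filter fun e => w e = y).card := by
        have : (S.filter fun e => w e = y).card = D := h
        omega
      obtain ⟨e, he⟩ := card_pos.1 h1
      exact mem_image.2 ⟨e, (mem_filter.1 he).1, (mem_filter.1 he).2⟩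
  have hnb : ∀ x y, y ∈ nb u w S x ↔ x ∈ nb w u S y := by
    intro x y
    rw [mem_nb, mem_nb]
    constructor
    · rintro ⟨e, h1, h2, h3⟩
      exact ⟨e, h1, h3, h2⟩
    · rintro ⟨e, h1, h2, h3⟩
      exact ⟨e, h1, h3, h2⟩
  by_cases hP : ∀ T ⊆ WD, T.card ≤ ((T.biUnion (nb w u S)).filter fun x => x ∈ UD).card
  · left
    -- an injection of the left vertices of maximum degree
    obtain ⟨f, hf1, hf2⟩ := (all_card_le_biUnion_card_iff_exists_injective
      (fun x : UD => nb u w S x)).1 (by
      intro s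
      have h1 := hall_reg u w S D hD hw (s.map (Function.Embedding.subtype _)) (by
        intro x hx
        obtain ⟨y, -, rfl⟩ := mem_map.1 hx
        exact (hUD _).1 y.2)
      rw [card_map] at h1
      refine h1.trans (card_le_card ?_)
      intro y hy
      obtain ⟨x, hx, hy⟩ := mem_biUnion.1 hy
      obtain ⟨x', hx', rfl⟩ := mem_map.1 hx
      exact mem_biUnion.2 ⟨x', hx', hy⟩)
    obtain ⟨g, hg1, hg2⟩ := (all_card_le_biUnion_card_iff_exists_injective
      (fun y : WD => (nb w u S y).filter fun x => x ∈ UD)).1 (by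
      intro s
      have h1 := hP (s.map (Function.Embedding.subtype _)) (by
        intro x hx
        obtain ⟨y, -, rfl⟩ := mem_map.1 hx
        exact y.2)
      rw [card_map] at h1
      refine h1.trans (card_le_card ?_)
      intro x hx
      obtain ⟨hx, hx2⟩ := mem_filter.1 hx
      obtain ⟨y, hy, hx⟩ := mem_biUnion.1 hx
      obtain ⟨y', hy', rfl⟩ := mem_map.1 hy
      exact mem_biUnion.2 ⟨y', hy', mem_filter.2 ⟨hx, hx2⟩⟩)
    obtain ⟨h, hh1, hh2, hh3⟩ := csb (ι := UD) (fun x y => y ∈ nb u w S x) f hf1 hf2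
      (WD : Set W) (fun y => ⟨g ⟨y.1, mem_coe.1 y.2⟩, (mem_filter.1 (hg2 _)).2⟩) (by
        intro y z hyz
        have := hg1 (congrArg Subtype.val hyz)
        exact Subtype.ext (congrArg Subtype.val this)) (by
        intro y
        exact (hnb _ _).2 (mem_filter.1 (hg2 ⟨y.1, mem_coe.1 y.2⟩)).1)
    have hne : UD.Nonempty := by
      rcases hatt with ⟨x, hx⟩ | ⟨y, hy⟩
      · exact ⟨x, (hUD x).2 hx⟩
      · exact ⟨g ⟨y, (hWD y).2 hy⟩, (mem_filter.1 (hg2 _)).2⟩
    refine goodM_of u w S D UD hne (fun x hx => (hUD x).1 hx) h hh1 (fun x => ?_) ?_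
    · obtain ⟨e, h1, h2, h3⟩ := mem_nb.1 (hh2 x)
      exact ⟨e, h1, h2, h3⟩
    · intro e _ _ hd
      exact hh3 (w e) (mem_coe.2 ((hWD _).2 hd))
  · right
    push Not at hP
    -- a minimal violator
    obtain ⟨T, hT, hTmin⟩ := exists_min_image
      (WD.powerset.filter fun T => ((T.biUnion (nb w u S)).filter fun x => x ∈ UD).card < T.card)
      card (by
        obtain ⟨T, h1, h2⟩ := hP
        exact ⟨T, mem_filter.2 ⟨mem_powerset.2 h1, h2⟩⟩)
    rw [mem_filter, mem_powerset] at hT
    obtain ⟨hTW, hTlt⟩ := hT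
    let Q : Finset U := (T.biUnion (nb w u S)).filter fun x => x ∈ UD
    have hsmall : ∀ T' ⊂ T, T'.card ≤ ((T'.biUnion (nb w u S)).filter fun x => x ∈ UD).card := by
      intro T' hT'
      by_contra h
      push Not at h
      have h1 := hTmin T' (mem_filter.2 ⟨mem_powerset.2 (hT'.1.trans hTW), h⟩)
      have h2 := card_lt_card hT'
      omega
    obtain ⟨f, hf1, hf2⟩ := (all_card_le_biUnion_card_iff_exists_injective
      (fun y : T => nb w u S y)).1 (by
      intro s
      have h1 := hall_reg w u S D hD hu (s.map (Function.Embedding.subtype _)) (by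
        intro x hx
        obtain ⟨y, -, rfl⟩ := mem_map.1 hx
        exact (hWD _).1 (hTW y.2))
      rw [card_map] at h1
      refine h1.trans (card_le_card ?_)
      intro y hy
      obtain ⟨x, hx, hy⟩ := mem_biUnion.1 hy
      obtain ⟨x', hx', rfl⟩ := mem_map.1 hx
      exact mem_biUnion.2 ⟨x', hx', hy⟩)
    obtain ⟨g, hg1, hg2⟩ := (all_card_le_biUnion_card_iff_exists_injective
      (fun x : Q => (nb u w S x).filter fun y => y ∈ T)).1 (by
      intro s
      rcases s.eq_empty_or_nonempty with rfl | hs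
      · simp
      let N : Finset W := s.biUnion fun x : Q => (nb u w S x).filter fun y => y ∈ T
      have hNT : N ⊆ T := by
        intro y hy
        obtain ⟨x, -, hy⟩ := mem_biUnion.1 hy
        exact (mem_filter.1 hy).2
      have hlt : T \ N ⊂ T := by
        refine (ssubset_iff_of_subset sdiff_subset).2 ?_
        obtain ⟨x, hx⟩ := hs
        obtain ⟨y, hy, hxy⟩ := mem_biUnion.1 (mem_filter.1 x.2).1
        exact ⟨y, hy, fun h => (mem_sdiff.1 h).2
          (mem_biUnion.2 ⟨x, hx, mem_filter.2 ⟨(hnb _ _).2 hxy, hy⟩⟩)⟩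
      have h1 := hsmall _ hlt
      have h2 : (((T \ N).biUnion (nb w u S)).filter fun x => x ∈ UD) ⊆
          Q \ s.map (Function.Embedding.subtype _) := by
        intro x hx
        obtain ⟨hx, hx2⟩ := mem_filter.1 hx
        obtain ⟨y, hy, hxy⟩ := mem_biUnion.1 hx
        rw [mem_sdiff] at hy
        have hxQ : x ∈ Q := mem_filter.2 ⟨mem_biUnion.2 ⟨y, hy.1, hxy⟩, hx2⟩
        refine mem_sdiff.2 ⟨hxQ, fun h => ?_⟩
        obtain ⟨x', hx', hxx⟩ := mem_map.1 h
        apply hy.2
        refine mem_biUnion.2 ⟨x', hx', mem_filter.2 ⟨?_, hy.1⟩⟩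
        have hxx' : (x' : U) = x := hxx
        rw [hxx']
        exact (hnb _ _).2 hxy
      have h3 := card_le_card h2
      rw [card_sdiff_of_subset (by
        intro x hx
        obtain ⟨x', -, rfl⟩ := mem_map.1 hx
        exact x'.2), card_map] at h3
      rw [card_sdiff_of_subset hNT] at h1
      have h4 := card_le_card hNT
      have h5 : s.card ≤ Q.card := by
        rw [← card_map (Function.Embedding.subtype _)]
        apply card_le_card
        intro x hx
        obtain ⟨x', -, rfl⟩ := mem_map.1 hx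
        exact x'.2
      have h6 : Q.card < T.card := hTlt
      show s.card ≤ N.card
      omega)
    obtain ⟨h, hh1, hh2, hh3⟩ := csb (ι := T) (fun y x => x ∈ nb w u S y) f hf1 hf2
      (Q : Set U) (fun x => ⟨g ⟨x.1, mem_coe.1 x.2⟩, (mem_filter.1 (hg2 _)).2⟩) (by
        intro y z hyz
        have := hg1 (congrArg Subtype.val hyz)
        exact Subtype.ext (congrArg Subtype.val this)) (by
        intro x
        exact (hnb _ _).1 (mem_filter.1 (hg2 ⟨x.1, mem_coe.1 x.2⟩)).1)
    refine goodM_of w u S D T (card_pos.1 (by omega)) (fun x hx => (hWD x).1 (hTW hx)) h hh1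
      (fun x => ?_) ?_
    · obtain ⟨e, h1, h2, h3⟩ := mem_nb.1 (hh2 x)
      exact ⟨e, h1, h2, h3⟩
    · intro e he heT hd
      refine hh3 (u e) (mem_coe.2 (mem_filter.2 ⟨mem_biUnion.2 ⟨w e, heT, ?_⟩, (hUD _).2 hd⟩))
      exact mem_nb.2 ⟨e, he, rfl, rfl⟩

/-- The ranks `a` at the left ends and `b` at the right ends are good for the edges in `S`. -/
def GoodR (u : E → U) (w : E → W) (S : Finset E) (a b : E → ℕ) : Prop :=
  (∀ e ∈ S, ∀ f ∈ S, u e = u f → a e = a f → e = f) ∧
  (∀ e ∈ S, ∀ f ∈ S, w e = w f → b e = b f → e = f) ∧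
  ∀ e ∈ S, (S.filter fun f => u f = u e ∧ a f < a e).card +
    (S.filter fun f => w f = w e ∧ b f < b e).card + 1 ≤ max (dg u S (u e)) (dg w S (w e))

theorem GoodR.swap {u : E → U} {w : E → W} {S : Finset E} {a b : E → ℕ} (h : GoodR u w S a b) :
    GoodR w u S b a := by
  refine ⟨h.2.1, h.1, fun e he => ?_⟩
  have := h.2.2 e he
  rw [max_comm]
  omega

theorem step (u : E → U) (w : E → W) (S : Finset E) (D : ℕ)
    (hw : ∀ y, dg w S y ≤ D) (M : Finset E) (hM : GoodM u w S D M) (a b : E → ℕ)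
    (h : GoodR u w (S \ M) a b) : ∃ a b, GoodR u w S a b := by
  obtain ⟨hMS, -, hM1, hM2, hM3⟩ := hM
  obtain ⟨h1, h2, h3⟩ := h
  obtain ⟨B, hB⟩ : ∃ B : ℕ, ∀ e ∈ S, b e < B :=
    ⟨S.sup b + 1, fun e he => Nat.lt_succ_of_le (le_sup he)⟩
  let a' : E → ℕ := fun e => if e ∈ M then 0 else a e + 1
  let b' : E → ℕ := fun e => if e ∈ M then B else b e
  have a1 : ∀ e, e ∈ M → a' e = 0 := fun e he => if_pos he
  have a2 : ∀ e, e ∉ M → a' e = a e + 1 := fun e he => if_neg he
  have b1 : ∀ e, e ∈ M → b' e = B := fun e he => if_pos he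
  have b2 : ∀ e, e ∉ M → b' e = b e := fun e he => if_neg he
  -- the degrees after the deletion of the matching
  have hdu : ∀ e ∈ M, dg u (S \ M) (u e) + 1 ≤ dg u S (u e) := by
    intro e he
    apply card_lt_card
    refine (ssubset_iff_of_subset (filter_subset_filter _ sdiff_subset)).2
      ⟨e, mem_filter.2 ⟨hMS he, rfl⟩, fun h => ?_⟩
    exact (mem_sdiff.1 (mem_filter.1 h).1).2 he
  have hdw : ∀ e ∈ M, dg w (S \ M) (w e) + 1 ≤ dg w S (w e) := by
    intro e he
    apply card_lt_card
    refine (ssubset_iff_of_subset (filter_subset_filter _ sdiff_subset)).2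
      ⟨e, mem_filter.2 ⟨hMS he, rfl⟩, fun h => ?_⟩
    exact (mem_sdiff.1 (mem_filter.1 h).1).2 he
  have hmu : ∀ x, dg u (S \ M) x ≤ dg u S x := fun x =>
    card_le_card (filter_subset_filter _ sdiff_subset)
  have hmw : ∀ x, dg w (S \ M) x ≤ dg w S x := fun x =>
    card_le_card (filter_subset_filter _ sdiff_subset)
  refine ⟨a', b', ?_, ?_, ?_⟩
  · intro e he f hf huv hab
    by_cases h4 : e ∈ M
    · by_cases h5 : f ∈ M
      · exact hM1 e h4 f h5 (Or.inl huv)
      · rw [a1 e h4, a2 f h5] at hab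
        omega
    · by_cases h5 : f ∈ M
      · rw [a2 e h4, a1 f h5] at hab
        omega
      · rw [a2 e h4, a2 f h5] at hab
        exact h1 e (mem_sdiff.2 ⟨he, h4⟩) f (mem_sdiff.2 ⟨hf, h5⟩) huv (by omega)
  · intro e he f hf huv hab
    by_cases h4 : e ∈ M
    · by_cases h5 : f ∈ M
      · exact hM1 e h4 f h5 (Or.inr huv)
      · rw [b1 e h4, b2 f h5] at hab
        have := hB f hf
        omega
    · by_cases h5 : f ∈ M
      · rw [b2 e h4, b1 f h5] at hab
        have := hB e he
        omega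
      · rw [b2 e h4, b2 f h5] at hab
        exact h2 e (mem_sdiff.2 ⟨he, h4⟩) f (mem_sdiff.2 ⟨hf, h5⟩) huv hab
  · intro e he
    by_cases h4 : e ∈ M
    · have c1 : (S.filter fun f => u f = u e ∧ a' f < a' e).card = 0 := by
        rw [card_eq_zero]
        apply filter_false_of_mem
        rintro f _ ⟨-, h5⟩
        rw [a1 e h4] at h5
        omega
      have c2 : (S.filter fun f => w f = w e ∧ b' f < b' e).card < dg w S (w e) := by
        apply card_lt_card
        refine (ssubset_iff_of_subset ?_).2 ⟨e, mem_filter.2 ⟨he, rfl⟩, fun h => ?_⟩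
        · intro f hf
          exact mem_filter.2 ⟨(mem_filter.1 hf).1, (mem_filter.1 hf).2.1⟩
        · exact lt_irrefl _ (mem_filter.1 h).2.2
      have c3 := le_max_right (dg u S (u e)) (dg w S (w e))
      omega
    · have heS : e ∈ S \ M := mem_sdiff.2 ⟨he, h4⟩
      have c0 := h3 e heS
      have c2 : (S.filter fun f => w f = w e ∧ b' f < b' e).card ≤
          ((S \ M).filter fun f => w f = w e ∧ b f < b e).card := by
        apply card_le_card
        intro f hf
        obtain ⟨hf1, hf2, hf3⟩ := mem_filter.1 hf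
        have hfM : f ∉ M := by
          intro h5
          rw [b1 f h5, b2 e h4] at hf3
          have := hB e he
          omega
        rw [b2 f hfM, b2 e h4] at hf3
        exact mem_filter.2 ⟨mem_sdiff.2 ⟨hf1, hfM⟩, hf2, hf3⟩
      by_cases hcov : ∃ f ∈ M, u f = u e
      · have c1 : (S.filter fun f => u f = u e ∧ a' f < a' e).card ≤
            ((S \ M).filter fun f => u f = u e ∧ a f < a e).card + 1 := by
          obtain ⟨g, hg, hge⟩ := hcov
          have : (S.filter fun f => u f = u e ∧ a' f < a' e) ⊆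
              insert g ((S \ M).filter fun f => u f = u e ∧ a f < a e) := by
            intro f hf
            obtain ⟨hf1, hf2, hf3⟩ := mem_filter.1 hf
            by_cases hfM : f ∈ M
            · rw [hM1 f hfM g hg (Or.inl (hf2.trans hge.symm))]
              exact mem_insert_self _ _
            · rw [a2 f hfM, a2 e h4] at hf3
              exact mem_insert_of_mem (mem_filter.2 ⟨mem_sdiff.2 ⟨hf1, hfM⟩, hf2, by omega⟩)
          exact (card_le_card this).trans (card_insert_le _ _)
        obtain ⟨g, hg, hge⟩ := hcov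
        have d1 := hM2 g hg
        have d2 := hdu g hg
        rw [hge] at d1 d2
        have d3 : dg w (S \ M) (w e) + 1 ≤ D := by
          by_cases hD : dg w S (w e) = D
          · obtain ⟨f, hf, hfe⟩ := hM3 e he ⟨g, hg, hge⟩ hD
            have := hdw f hf
            rw [hfe] at this
            omega
          · have d4 := hw (w e)
            have d5 := hmw (w e)
            omega
        have d6 : max (dg u (S \ M) (u e)) (dg w (S \ M) (w e)) + 1 ≤ D := by
          rcases max_cases (dg u (S \ M) (u e)) (dg w (S \ M) (w e)) with ⟨h5, _⟩ | ⟨h5, _⟩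
          · rw [h5]
            omega
          · rw [h5]
            exact d3
        have c3 := le_max_left (dg u S (u e)) (dg w S (w e))
        omega
      · have c1 : (S.filter fun f => u f = u e ∧ a' f < a' e).card ≤
            ((S \ M).filter fun f => u f = u e ∧ a f < a e).card := by
          apply card_le_card
          intro f hf
          obtain ⟨hf1, hf2, hf3⟩ := mem_filter.1 hf
          have hfM : f ∉ M := fun h5 => hcov ⟨f, h5, hf2⟩
          rw [a2 f hfM, a2 e h4] at hf3
          exact mem_filter.2 ⟨mem_sdiff.2 ⟨hf1, hfM⟩, hf2, by omega⟩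
        have c3 := max_le_max (hmu (u e)) (hmw (w e))
        omega

/-- **The ranks of Borodin, Kostochka and Woodall.** -/
theorem bkw (u : E → U) (w : E → W) : ∀ (n : ℕ) (S : Finset E), S.card = n →
    ∃ a b, GoodR u w S a b := by
  intro n
  induction n using Nat.strong_induction_on with
  | _ n ih =>
    intro S hS
    rcases S.eq_empty_or_nonempty with rfl | hne
    · exact ⟨fun _ => 0, fun _ => 0, by simp, by simp, by simp⟩
    obtain ⟨D, hu, hw, hatt⟩ : ∃ D, (∀ x, dg u S x ≤ D) ∧ (∀ y, dg w S y ≤ D) ∧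
        ((∃ x, dg u S x = D) ∨ ∃ y, dg w S y = D) := by
      obtain ⟨e1, -, he1⟩ := exists_max_image S (fun e => dg u S (u e)) hne
      obtain ⟨e2, -, he2⟩ := exists_max_image S (fun e => dg w S (w e)) hne
      have k1 : ∀ x, dg u S x ≤ dg u S (u e1) := by
        intro x
        rcases Nat.eq_zero_or_pos (dg u S x) with h | h
        · omega
        · obtain ⟨e, he⟩ := card_pos.1 h
          rw [mem_filter] at he
          rw [← he.2]
          exact he1 e he.1
      have k2 : ∀ x, dg w S x ≤ dg w S (w e2) := by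
        intro x
        rcases Nat.eq_zero_or_pos (dg w S x) with h | h
        · omega
        · obtain ⟨e, he⟩ := card_pos.1 h
          rw [mem_filter] at he
          rw [← he.2]
          exact he2 e he.1
      rcases le_total (dg u S (u e1)) (dg w S (w e2)) with h | h
      · exact ⟨dg w S (w e2), fun x => (k1 x).trans h, k2, Or.inr ⟨_, rfl⟩⟩
      · exact ⟨dg u S (u e1), k1, fun y => (k2 y).trans h, Or.inl ⟨_, rfl⟩⟩
    have hD : 1 ≤ D := by
      obtain ⟨e, he⟩ := hne
      have h1 : 0 < dg u S (u e) := card_pos.2 ⟨e, mem_filter.2 ⟨he, rfl⟩⟩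
      exact h1.trans_le (hu _)
    have hcard : ∀ M ⊆ S, M.Nonempty → (S \ M).card < n := by
      rintro M hM ⟨e, he⟩
      rw [← hS]
      apply card_lt_card
      exact (ssubset_iff_of_subset sdiff_subset).2 ⟨e, hM he, fun h => (mem_sdiff.1 h).2 he⟩
    rcases exists_goodM u w S D hD hu hw hatt with ⟨M, hM⟩ | ⟨M, hM⟩
    · obtain ⟨a, b, hab⟩ := ih _ (hcard M hM.1 hM.2.1) (S \ M) rfl
      exact step u w S D hw M hM a b hab
    · obtain ⟨a, b, hab⟩ := ih _ (hcard M hM.1 hM.2.1) (S \ M) rfl
      obtain ⟨a', b', h⟩ := step w u S D hu M hM b a hab.swap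
      exact ⟨b', a', h.swap⟩

end

end Pool.Agent.H8.Cwb
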