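import Pool.Agent.H8.Cwb.Cor
import Pool.Agent.H8.Few.Two

/-!
# Blocks of colour classes, sets at the vertices, and simple graphs
-/

set_option autoImplicit false

namespace Pool.Agent.H8.Cwb

open Finset

section

variable {V E : Type}

/-- A proper colouring of the edges. -/
def Proper {C : Type} (s t : E → V) (c : E → C) : Prop :=
  ∀ e f, e ≠ f → ∀ w, (s e = w ∨ t e = w) → (s f = w ∨ t f = w) → c e ≠ c f

/-- the line graph of a multigraph -/
def lineG (s t : E → V) : SimpleGraph E where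
  Adj e f := e ≠ f ∧ ∃ w, (s e = w ∨ t e = w) ∧ (s f = w ∨ t f = w)
  symm := ⟨fun _ _ h => ⟨h.1.symm, h.2.imp fun _ h' => ⟨h'.2, h'.1⟩⟩⟩
  loopless := ⟨fun _ h => h.1 rfl⟩

theorem lineG_cf (s t : E → V) : Pool.Agent.H8.Few.CF (lineG s t) := by
  rintro v a b c ⟨-, w1, a1, a2⟩ ⟨-, w2, b1, b2⟩ ⟨-, w3, c1, c2⟩ hab hac hbc
  have key : w1 = w2 ∨ w1 = w3 ∨ w2 = w3 := by
    rcases a1 with a1 | a1
    · rcases b1 with b1 | b1
      · exact Or.inl (a1.symm.trans b1)
      · rcases c1 with c1 | c1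
        · exact Or.inr (Or.inl (a1.symm.trans c1))
        · exact Or.inr (Or.inr (b1.symm.trans c1))
    · rcases b1 with b1 | b1
      · rcases c1 with c1 | c1
        · exact Or.inr (Or.inr (b1.symm.trans c1))
        · exact Or.inr (Or.inl (a1.symm.trans c1))
      · exact Or.inl (a1.symm.trans b1)
  rcases key with h | h | h
  · exact Or.inl ⟨hab, w1, a2, h ▸ b2⟩
  · exact Or.inr (Or.inl ⟨hac, w1, a2, h ▸ c2⟩)
  · exact Or.inr (Or.inr ⟨hbc, w2, b2, h ▸ c2⟩)

/-- At most two classes. -/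
theorem few [Finite E] (s t : E → V) (k : ℕ) (hk : k ≤ 2) (c : E → ℕ) (hck : ∀ e, c e < k)
    (hc : Proper s t c) (L : E → Finset ℕ) (hL : ∀ e, k ≤ (L e).card) : EdgeCol s t L := by
  have hK : Pool.Agent.H8.Few.KCol (lineG s t) Set.univ k :=
    ⟨c, fun e _ => hck e, fun e _ f _ h => by
      obtain ⟨h1, w, h2, h3⟩ := h
      exact hc e f h1 w h2 h3⟩
  have hC : Pool.Agent.H8.Few.Col (lineG s t) Set.univ L := by
    rcases (show k = 0 ∨ k = 1 ∨ k = 2 by omega) with rfl | rfl | rfl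
    · exact ⟨fun _ => 0, fun e _ => absurd (hck e) (Nat.not_lt_zero _),
        fun e _ => absurd (hck e) (Nat.not_lt_zero _)⟩
    · exact Pool.Agent.H8.Few.one hK L (fun e _ => hL e)
    · exact Pool.Agent.H8.Few.two (lineG_cf s t) hK L (fun e _ => hL e)
  obtain ⟨f, h1, h2⟩ := hC
  exact ⟨f, fun e => h1 e (Set.mem_univ e), fun e g hne w h3 h4 =>
    h2 e (Set.mem_univ e) g (Set.mem_univ g) ⟨hne, w, h3, h4⟩⟩

/-- Ordered lists of `k` colours. -/
theorem ordered [Finite V] [Finite E] (s t : E → V) (hst : ∀ e, s e ≠ t e) (k : ℕ)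
    (hk : DegCond s t k) (L : E → Finset ℕ) (h1 : ∀ e, k ≤ (L e).card)
    (hb : ∀ x, Bip s t {e | x ∈ L e ∧ ∃ y ∈ L e, x < y}) : EdgeCol s t L := by
  classical
  have := Fintype.ofFinite E
  obtain ⟨N, hN⟩ : ∃ N, ∀ e, ∀ x ∈ L e, x < N :=
    ⟨(univ.biUnion L).sup id + 1, fun e x hx => Nat.lt_succ_of_le
      (le_sup (f := id) (mem_biUnion.2 ⟨e, mem_univ e, hx⟩))⟩
  refine uniform s t hst k hk N L h1 ?_ ⟨fun x _ => hb x, ?_⟩
  · intro e
    have h2 : ((L e).filter fun z => z < N) = L e := filter_true_of_mem (hN e)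
    rw [h2]
    have := h1 e
    omega
  · intro x y hxy
    refine ⟨fun _ => true, fun e he => ?_⟩
    exfalso
    have h2 : ((L e).filter fun z => N ≤ z) = {x, y} := he
    have h3 : x ∈ (L e).filter fun z => N ≤ z := by
      rw [h2]
      exact mem_insert_self _ _
    rw [mem_filter] at h3
    have := hN e x h3.1
    omega

/-- **Blocks of colour classes.** -/
theorem blocks [Finite V] [Finite E] (s t : E → V) (hst : ∀ e, s e ≠ t e) (k : ℕ)
    (c : E → Fin k) (hc : Proper s t c) (r : ℕ) (ι : Fin k → Fin r) (L : E → Finset ℕ)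
    (n : E → ℕ → Fin r)
    (hn : ∀ e f w x, (s e = w ∨ t e = w) → (s f = w ∨ t f = w) → x ∈ L e → x ∈ L f →
      n e x = n f x)
    (hL : ∀ e, (univ.filter fun i => ι i = ι (c e)).card ≤
      ((L e).filter fun x => n e x = ι (c e)).card)
    (hb : ∀ j, 3 ≤ (univ.filter fun i => ι i = j).card → ∀ x,
      Bip s t {e | ι (c e) = j ∧ x ∈ L e ∧ n e x = j ∧ ∃ y ∈ L e, n e y = j ∧ x < y}) :
    EdgeCol s t L := by
  classical
  have hblock : ∀ j, ∃ f : E → ℕ, (∀ e, ι (c e) = j → f e ∈ (L e).filter fun x => n e x = j) ∧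
      ∀ e g, ι (c e) = j → ι (c g) = j → e ≠ g → ∀ w, (s e = w ∨ t e = w) →
        (s g = w ∨ t g = w) → f e ≠ f g := by
    intro j
    let E0 : Type := {e : E // ι (c e) = j}
    let I : Finset (Fin k) := univ.filter fun i => ι i = j
    have hI : ∀ e : E0, c e.1 ∈ I := fun e => mem_filter.2 ⟨mem_univ _, e.2⟩
    let c0 : E0 → ℕ := fun e => I.equivFin ⟨c e.1, hI e⟩
    have hc0 : Proper (fun e : E0 => s e.1) (fun e : E0 => t e.1) c0 := by
      intro e f hne w h1 h2 h3
      have h4 := I.equivFin.injective (Fin.ext h3)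
      exact hc e.1 f.1 (fun h => hne (Subtype.ext h)) w h1 h2 (congrArg Subtype.val h4)
    have hck : ∀ e, c0 e < I.card := fun e => (I.equivFin ⟨c e.1, hI e⟩).2
    have hL0 : ∀ e : E0, I.card ≤ ((L e.1).filter fun x => n e.1 x = j).card := by
      intro e
      have := hL e.1
      rw [e.2] at this
      exact this
    have hcol : EdgeCol (fun e : E0 => s e.1) (fun e : E0 => t e.1)
        (fun e => (L e.1).filter fun x => n e.1 x = j) := by
      by_cases h3 : 3 ≤ I.card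
      · refine ordered _ _ (fun e => hst e.1) I.card
          (degCond_of_proper (fun e : E0 => s e.1) (fun e : E0 => t e.1) I.card c0 hck hc0) _ hL0 ?_
        intro x
        obtain ⟨side, hside⟩ := hb j h3 x
        refine ⟨side, fun e he => hside e.1 ⟨e.2, ?_⟩⟩
        obtain ⟨h4, y, h5, h6⟩ := he
        rw [mem_filter] at h4 h5
        exact ⟨h4.1, h4.2, y, h5.1, h5.2, h6⟩
      · exact few _ _ I.card (by omega) c0 hck hc0 _ hL0
    obtain ⟨f, h1, h2⟩ := hcol
    refine ⟨fun e => if h : ι (c e) = j then f ⟨e, h⟩ else 0, ?_, ?_⟩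
    · intro e he
      have h3 : (if h : ι (c e) = j then f ⟨e, h⟩ else 0) = f ⟨e, he⟩ := dif_pos he
      show (if h : ι (c e) = j then f ⟨e, h⟩ else 0) ∈ _
      rw [h3]
      exact h1 ⟨e, he⟩
    · intro e g he hg hne w hw hw'
      have h3 : (if h : ι (c e) = j then f ⟨e, h⟩ else 0) = f ⟨e, he⟩ := dif_pos he
      have h4 : (if h : ι (c g) = j then f ⟨g, h⟩ else 0) = f ⟨g, hg⟩ := dif_pos hg
      show (if h : ι (c e) = j then f ⟨e, h⟩ else 0) ≠ (if h : ι (c g) = j then f ⟨g, h⟩ else 0)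
      rw [h3, h4]
      exact h2 _ _ (fun h => hne (congrArg Subtype.val h)) w hw hw'
  choose F hF1 hF2 using hblock
  refine ⟨fun e => F (ι (c e)) e, ?_, ?_⟩
  · intro e
    exact (mem_filter.1 (hF1 _ e rfl)).1
  · intro e g hne w hw hw' h
    change F (ι (c e)) e = F (ι (c g)) g at h
    have a1 := mem_filter.1 (hF1 _ e rfl)
    have a2 := mem_filter.1 (hF1 _ g rfl)
    by_cases h3 : ι (c e) = ι (c g)
    · rw [h3] at h
      exact hF2 (ι (c g)) e g h3 rfl hne w hw hw' h
    · have h4 := hn e g w _ hw hw' a1.1 (by rw [h]; exact a2.1)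
      rw [a1.2] at h4
      rw [h, a2.2] at h4
      exact h3 h4

/-- **Sets at the vertices.** -/
theorem sets [Finite V] [Finite E] (s t : E → V) (hst : ∀ e, s e ≠ t e) (k : ℕ)
    (hk : DegCond s t k) (S : V → Finset ℕ)
    (hS : ∀ e, k ≤ (symmDiff (S (s e)) (S (t e))).card) :
    EdgeCol s t (fun e => symmDiff (S (s e)) (S (t e))) := by
  classical
  refine ordered s t hst k hk _ hS (fun x => ⟨fun v => decide (x ∈ S v), ?_⟩)
  rintro e ⟨he, -⟩
  have he' : x ∈ symmDiff (S (s e)) (S (t e)) := he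
  rw [mem_symmDiff] at he'
  intro h
  have h' : (x ∈ S (s e)) ↔ (x ∈ S (t e)) := by
    have := congrArg (· = true) h
    simpa using this
  tauto

end

end Pool.Agent.H8.Cwb
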