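import Pool.Agent.H8.Cwb.Main

/-!
# Regular and local list sizes
-/

set_option autoImplicit false

namespace Pool.Agent.H8.Cwb

open Finset

section

variable {V E : Type}

theorem ends_iff {s t p q : E → V}
    (h : ∀ e, (p e = s e ∧ q e = t e) ∨ (p e = t e ∧ q e = s e)) (e : E) (w : V) :
    (p e = w ∨ q e = w) ↔ (s e = w ∨ t e = w) := by
  rcases h e with ⟨h1, h2⟩ | ⟨h1, h2⟩
  · rw [h1, h2]
  · rw [h1, h2]
    exact or_comm

theorem Bip.reorient {s t p q : E → V}
    (h : ∀ e, (p e = s e ∧ q e = t e) ∨ (p e = t e ∧ q e = s e)) {F : Set E} (hF : Bip s t F) :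
    Bip p q F := by
  obtain ⟨side, hside⟩ := hF
  refine ⟨side, fun e he => ?_⟩
  rcases h e with ⟨h1, h2⟩ | ⟨h1, h2⟩
  · rw [h1, h2]
    exact hside e he
  · rw [h1, h2]
    exact (hside e he).symm

theorem Adm.reorient {s t p q : E → V}
    (h : ∀ e, (p e = s e ∧ q e = t e) ∨ (p e = t e ∧ q e = s e)) {N : ℕ} {L : E → Finset ℕ}
    (hL : Adm s t N L) : Adm p q N L :=
  ⟨fun x hx => (hL.1 x hx).reorient h, fun x y hxy => (hL.2 x y hxy).reorient h⟩

theorem EdgeCol.reorient {s t p q : E → V}
    (h : ∀ e, (p e = s e ∧ q e = t e) ∨ (p e = t e ∧ q e = s e)) {L : E → Finset ℕ}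
    (hL : EdgeCol p q L) : EdgeCol s t L := by
  obtain ⟨f, h1, h2⟩ := hL
  exact ⟨f, h1, fun e g hne w h3 h4 => h2 e g hne w ((ends_iff h e w).2 h3)
    ((ends_iff h g w).2 h4)⟩

/-- `M` is a matching. -/
def Matching (s t : E → V) (M : Set E) : Prop :=
  ∀ e ∈ M, ∀ f ∈ M, ∀ w, (s e = w ∨ t e = w) → (s f = w ∨ t f = w) → e = f

/-- Balanced orientations of `G - M`. -/
theorem orientM [Finite V] [Finite E] (s t : E → V) (hst : ∀ e, s e ≠ t e) (M : Set E) :
    ∃ p q : E → V, (∀ e, (p e = s e ∧ q e = t e) ∨ (p e = t e ∧ q e = s e)) ∧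
      ∀ v, 2 * outDeg p M v ≤ {e | e ∉ M ∧ (s e = v ∨ t e = v)}.ncard + 1 := by
  classical
  have := Fintype.ofFinite V
  have := Fintype.ofFinite E
  let E0 : Type := {e : E // e ∉ M}
  obtain ⟨p0, q0, hpq, hout⟩ := orient (V := V) (E := E0) (fun e => s e.1) (fun e => t e.1)
  let p : E → V := fun e => if h : e ∉ M then p0 ⟨e, h⟩ else s e
  let q : E → V := fun e => if h : e ∉ M then q0 ⟨e, h⟩ else t e
  refine ⟨p, q, ?_, ?_⟩
  · intro e
    by_cases h : e ∉ M
    · have h1 : p e = p0 ⟨e, h⟩ := dif_pos h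
      have h2 : q e = q0 ⟨e, h⟩ := dif_pos h
      rw [h1, h2]
      exact hpq ⟨e, h⟩
    · exact Or.inl ⟨dif_neg h, dif_neg h⟩
  · intro v
    have h1 : {e | e ∉ M ∧ (s e = v ∨ t e = v)} =
        (((univ.filter fun e : E0 => s e.1 = v) ∪ (univ.filter fun e : E0 => t e.1 = v)).map
          (Function.Embedding.subtype _) : Finset E) := by
      ext e
      simp only [Set.mem_ofPred_eq, coe_map, Function.Embedding.coe_subtype, Set.mem_image, mem_coe,
        mem_union, mem_filter, mem_univ, true_and]
      constructor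
      · rintro ⟨h1, h2⟩
        exact ⟨⟨e, h1⟩, h2, rfl⟩
      · rintro ⟨x, hx, rfl⟩
        exact ⟨x.2, hx⟩
    have h2 : {e | e ∉ M ∧ (s e = v ∨ t e = v)}.ncard =
        (univ.filter fun e : E0 => s e.1 = v).card + (univ.filter fun e : E0 => t e.1 = v).card := by
      rw [h1, Set.ncard_coe_finset, card_map, card_union_of_disjoint]
      rw [disjoint_left]
      intro e h2 h3
      exact hst e.1 ((mem_filter.1 h2).2.trans (mem_filter.1 h3).2.symm)
    have h3 : outDeg p M v = (univ.filter fun e : E0 => p0 e = v).card := by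
      unfold outDeg
      have h4 : {e | e ∉ M ∧ p e = v} =
          ((univ.filter fun e : E0 => p0 e = v).map (Function.Embedding.subtype _) : Finset E) := by
        ext e
        simp only [Set.mem_ofPred_eq, coe_map, Function.Embedding.coe_subtype, Set.mem_image,
          mem_coe, mem_filter, mem_univ, true_and]
        constructor
        · rintro ⟨h1, h2⟩
          refine ⟨⟨e, h1⟩, ?_, rfl⟩
          simp only [p, dif_pos h1] at h2
          exact h2
        · rintro ⟨x, hx, rfl⟩
          refine ⟨x.2, ?_⟩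
          simp only [p, dif_pos x.2]
          exact hx
      rw [h4, Set.ncard_coe_finset, card_map]
    rw [h2, h3]
    exact hout v

theorem deg_reorient {s t p q : E → V}
    (h : ∀ e, (p e = s e ∧ q e = t e) ∨ (p e = t e ∧ q e = s e)) (v : V) :
    deg p q v = deg s t v := by
  unfold deg
  congr 1
  ext e
  exact ends_iff h e v

theorem mDeg_le [Finite E] {p q : E → V} {M : Set E} (hM : Matching p q M) (v : V) :
    mDeg p q M v ≤ 1 := by
  unfold mDeg
  rw [Set.ncard_le_one (Set.toFinite _)]
  intro e he f hf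
  exact hM e he.1 f hf.1 v he.2 hf.2

/-- The condition on the degrees: all degrees are at most `k`, and if `k` is odd then some matching
covers all vertices of degree `k`. -/
def DegCond (s t : E → V) (k : ℕ) : Prop :=
  (∀ v, deg s t v ≤ k) ∧
    (Even k ∨ ∃ M : Set E, Matching s t M ∧ ∀ v, deg s t v = k → ∃ e ∈ M, s e = v ∨ t e = v)

/-- **Lists of `k` colours.** -/
theorem uniform [Finite V] [Finite E] (s t : E → V) (hst : ∀ e, s e ≠ t e) (k : ℕ)
    (hk : DegCond s t k) (N : ℕ) (L : E → Finset ℕ) (h1 : ∀ e, k ≤ (L e).card)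
    (h2 : ∀ e, k ≤ ((L e).filter fun z => z < N).card + 2) (hL : Adm s t N L) :
    EdgeCol s t L := by
  classical
  obtain ⟨hdeg, hk⟩ := hk
  -- the matching
  obtain ⟨m, M, hM, hm, hM0, hdM⟩ : ∃ (m : ℕ) (M : Set E), Matching s t M ∧
      (k = 2 * m ∨ k = 2 * m + 1) ∧ (k = 2 * m → M = ∅) ∧
      ∀ v, {e | e ∉ M ∧ (s e = v ∨ t e = v)}.ncard ≤ 2 * m := by
    by_cases he : Even k
    · obtain ⟨m, hm⟩ := he
      refine ⟨m, ∅, fun e he => absurd he (Set.notMem_empty e), Or.inl (by omega), fun _ => rfl,
        fun v => ?_⟩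
      have h3 : {e | e ∉ (∅ : Set E) ∧ (s e = v ∨ t e = v)} = {e | s e = v ∨ t e = v} := by
        ext e
        simp
      rw [h3]
      have := hdeg v
      unfold deg at this
      omega
    · obtain ⟨M, hM, hcov⟩ := hk.resolve_left he
      rw [Nat.not_even_iff_odd] at he
      obtain ⟨m, hm⟩ := he
      refine ⟨m, M, hM, Or.inr hm, fun h => by omega, fun v => ?_⟩
      have h3 : {e | e ∉ M ∧ (s e = v ∨ t e = v)} ⊆ {e | s e = v ∨ t e = v} := fun e he => he.2
      have h4 := hdeg v
      by_cases h5 : deg s t v = k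
      · obtain ⟨f, hf, hfv⟩ := hcov v h5
        have h6 : {e | e ∉ M ∧ (s e = v ∨ t e = v)} ⊂ {e | s e = v ∨ t e = v} := by
          refine ⟨h3, fun h7 => ?_⟩
          exact (h7 hfv).1 hf
        have h7 := Set.ncard_lt_ncard h6 (Set.toFinite _)
        unfold deg at h5
        omega
      · have h7 := Set.ncard_le_ncard h3 (Set.toFinite _)
        unfold deg at h4 h5
        omega
  obtain ⟨p, q, hpq, hout⟩ := orientM s t hst M
  have hMpq : Matching p q M := by
    intro e he f hf w h3 h4
    exact hM e he f hf w ((ends_iff hpq e w).1 h3) ((ends_iff hpq f w).1 h4)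
  have hneed : ∀ e, need p q M e ≤ k := by
    intro e
    have a1 := hout (p e)
    have a2 := hout (q e)
    have a3 := hdM (p e)
    have a4 := hdM (q e)
    unfold need
    split_ifs with h3
    · have : k ≠ 2 * m := by
        intro h4
        rw [hM0 h4] at h3
        exact Set.notMem_empty e h3
      omega
    · refine max_le ?_ ?_
      · have h4 := mDeg_le hMpq (q e)
        by_cases h5 : k = 2 * m
        · have h6 : mDeg p q M (q e) = 0 := by
            unfold mDeg
            rw [hM0 h5]
            simp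
          omega
        · omega
      · rw [deg_reorient hpq]
        exact hdeg _
  refine EdgeCol.reorient hpq (oriented p q ?_ M hMpq N L (fun e => (hneed e).trans (h1 e))
    (fun e => (hneed e).trans (h2 e)) (hL.reorient hpq))
  intro e
  rcases hpq e with ⟨h3, h4⟩ | ⟨h3, h4⟩
  · rw [h3, h4]
    exact hst e
  · rw [h3, h4]
    exact (hst e).symm

open Classical in
/-- The local number of the colours: the larger degree of the two ends, plus one if the two degrees
are equal and odd. -/
noncomputable def locNeed (s t : E → V) (e : E) : ℕ :=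
  max (deg s t (s e)) (deg s t (t e)) +
    if deg s t (s e) = deg s t (t e) ∧ Odd (deg s t (s e)) then 1 else 0

/-- **Local list sizes.** -/
theorem localSizes [Finite V] [Finite E] (s t : E → V) (hst : ∀ e, s e ≠ t e) (N : ℕ)
    (L : E → Finset ℕ) (h1 : ∀ e, locNeed s t e ≤ (L e).card)
    (h2 : ∀ e, locNeed s t e ≤ ((L e).filter fun z => z < N).card + 2) (hL : Adm s t N L) :
    EdgeCol s t L := by
  classical
  obtain ⟨p, q, hpq, hout⟩ := orientM s t hst ∅
  have hout' : ∀ v, 2 * outDeg p ∅ v ≤ deg s t v + 1 := by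
    intro v
    refine (hout v).trans (le_of_eq ?_)
    unfold deg
    congr 2
    ext e
    simp
  have hM : Matching p q (∅ : Set E) := fun e he => absurd he (Set.notMem_empty e)
  have hneed : ∀ e, need p q ∅ e ≤ locNeed s t e := by
    intro e
    have a1 := hout' (p e)
    have a2 := hout' (q e)
    have h6 : mDeg p q ∅ (q e) = 0 := by
      unfold mDeg
      simp
    have key : ∀ a b x y : ℕ, 2 * x ≤ a + 1 → 2 * y ≤ b + 1 →
        x + y ≤ max a b + (if a = b ∧ Odd a then 1 else 0) := by
      intro a b x y hx hy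
      rcases lt_trichotomy a b with h | h | h
      · rw [max_eq_right h.le]
        omega
      · subst h
        rw [max_self]
        by_cases ho : Odd a
        · rw [if_pos ⟨rfl, ho⟩]
          omega
        · rw [if_neg (fun h => ho h.2)]
          rw [Nat.not_odd_iff_even] at ho
          obtain ⟨c, hc⟩ := ho
          omega
      · rw [max_eq_left h.le]
        omega
    unfold need locNeed
    rw [if_neg (Set.notMem_empty e), h6, add_zero, deg_reorient hpq]
    rcases hpq e with ⟨h3, h4⟩ | ⟨h3, h4⟩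
    · rw [h3] at a1
      rw [h4] at a2
      rw [h3, h4]
      refine max_le (key _ _ _ _ a1 a2) ?_
      exact (le_max_right _ _).trans (Nat.le_add_right _ _)
    · rw [h3] at a1
      rw [h4] at a2
      rw [h3, h4]
      refine max_le ?_ ?_
      · rw [add_comm (outDeg p ∅ (t e))]
        exact key _ _ _ _ a2 a1
      · exact (le_max_left _ _).trans (Nat.le_add_right _ _)
  refine EdgeCol.reorient hpq (oriented p q ?_ ∅ hM N L (fun e => (hneed e).trans (h1 e))
    (fun e => (hneed e).trans (h2 e)) (hL.reorient hpq))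
  intro e
  rcases hpq e with ⟨h3, h4⟩ | ⟨h3, h4⟩
  · rw [h3, h4]
    exact hst e
  · rw [h3, h4]
    exact (hst e).symm

/-- `k`-edge-colourable multigraphs. -/
theorem degCond_of_proper [Finite E] (s t : E → V) (k : ℕ) (c : E → ℕ) (hck : ∀ e, c e < k)
    (hc : ∀ e f, e ≠ f → ∀ w, (s e = w ∨ t e = w) → (s f = w ∨ t f = w) → c e ≠ c f) :
    DegCond s t k := by
  classical
  have hinj : ∀ v, Set.InjOn c {e | s e = v ∨ t e = v} := by
    intro v e he f hf h
    by_contra hne
    exact hc e f hne v he hf h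
  have hmaps : ∀ v, ∀ e ∈ {e | s e = v ∨ t e = v}, c e ∈ ((range k : Finset ℕ) : Set ℕ) :=
    fun v e _ => mem_coe.2 (mem_range.2 (hck e))
  refine ⟨fun v => ?_, ?_⟩
  · have := Set.ncard_le_ncard_of_injOn c (hmaps v) (hinj v)
    rwa [Set.ncard_coe_finset, card_range] at this
  · rcases Nat.eq_zero_or_pos k with rfl | hk
    · exact Or.inl Even.zero
    · right
      refine ⟨{e | c e = 0}, ?_, ?_⟩
      · intro e he f hf w h1 h2
        by_contra hne
        exact hc e f hne w h1 h2 (he.trans hf.symm)
      · intro v hv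
        have h1 : c '' {e | s e = v ∨ t e = v} = ((range k : Finset ℕ) : Set ℕ) := by
          apply Set.eq_of_subset_of_ncard_le
          · rintro _ ⟨e, he, rfl⟩
            exact hmaps v e he
          · rw [(hinj v).ncard_image, Set.ncard_coe_finset, card_range]
            exact hv.ge
          · exact finite_toSet _
        have h2 : (0 : ℕ) ∈ c '' {e | s e = v ∨ t e = v} := by
          rw [h1]
          exact mem_coe.2 (mem_range.2 hk)
        obtain ⟨e, he, he0⟩ := h2
        exact ⟨e, he0, he⟩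

end

end Pool.Agent.H8.Cwb
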