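import Pool.Agent.H8.Cwb.Order

/-!
# The last two colours
-/

set_option autoImplicit false

namespace Pool.Agent.H8.Cwb

open Finset

section

variable {V E : Type} [DecidableEq V] {p q : E → V} {a b : E → ℕ}

theorem better_total
    (hl : ∀ w e f, Inc p q w e → Inc p q w f → lab p a b w e = lab p a b w f → e = f)
    {e f : E} (hne : e ≠ f) {w : V} (h1 : Inc p q w e) (h2 : Inc p q w f) :
    Better p q a b e f ∨ Better p q a b f e := by
  rcases lt_trichotomy (lab p a b w e) (lab p a b w f) with h | h | h
  · exact Or.inr ⟨w, h2, h1, h⟩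
  · exact absurd (hl w e f h1 h2 h) hne
  · exact Or.inl ⟨w, h1, h2, h⟩

theorem worse_unique [DecidableEq E]
    (hl : ∀ w e f, Inc p q w e → Inc p q w f → lab p a b w e = lab p a b w f → e = f)
    {S : Finset E} (h1 : ∀ e ∈ S, od p q a b S e = 1) {f e g : E} (hf : f ∈ S) (he : e ∈ S)
    (hg : g ∈ S) (hef : Better p q a b e f) (hgf : Better p q a b g f) : e = g := by
  by_contra hne
  obtain ⟨w1, a1, a2, a3⟩ := hef
  obtain ⟨w2, b1, b2, b3⟩ := hgf
  by_cases hw : w1 = w2
  · subst hw
    rcases lt_trichotomy (lab p a b w1 e) (lab p a b w1 g) with h | h | h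
    · have h2 := od_two (p := p) (q := q) (a := a) (b := b) (e := g) hf he (by
        rintro rfl
        exact lt_irrefl _ a3) ⟨w1, b1, a2, b3⟩ ⟨w1, b1, a1, h⟩
      rw [h1 g hg] at h2
      omega
    · exact hne (hl w1 e g a1 b1 h)
    · have h2 := od_two (p := p) (q := q) (a := a) (b := b) (e := e) hf hg (by
        rintro rfl
        exact lt_irrefl _ b3) ⟨w1, a1, a2, a3⟩ ⟨w1, a1, b1, h⟩
      rw [h1 e he] at h2
      omega
  · obtain ⟨h, hh, w, c1, c2, c3⟩ := exists_better (p := p) (q := q) (a := a) (b := b) (S := S)
      (e := f) (by rw [h1 f hf]; exact one_pos)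
    have hw2 : w = w1 ∨ w = w2 := by
      rcases c1 with c1 | c1
      · rcases a2 with a2 | a2
        · exact Or.inl (c1.symm.trans a2)
        · rcases b2 with b2 | b2
          · exact Or.inr (c1.symm.trans b2)
          · exact absurd (a2.symm.trans b2) hw
      · rcases a2 with a2 | a2
        · rcases b2 with b2 | b2
          · exact absurd (a2.symm.trans b2) hw
          · exact Or.inr (c1.symm.trans b2)
        · exact Or.inl (c1.symm.trans a2)
    have hfh : f ≠ h := by
      rintro rfl
      exact lt_irrefl _ c3
    rcases hw2 with rfl | rfl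
    · have h2 := od_two (p := p) (q := q) (a := a) (b := b) (e := e) hf hh hfh
        ⟨w, a1, a2, a3⟩ ⟨w, a1, c2, c3.trans a3⟩
      rw [h1 e he] at h2
      omega
    · have h2 := od_two (p := p) (q := q) (a := a) (b := b) (e := g) hf hh hfh
        ⟨w, b1, b2, b3⟩ ⟨w, b1, c2, c3.trans b3⟩
      rw [h1 g hg] at h2
      omega

/-- **The last two colours**: at most one better edge for each edge. -/
theorem last [DecidableEq E]
    (hl : ∀ w e f, Inc p q w e → Inc p q w f → lab p a b w e = lab p a b w f → e = f) :
    ∀ (n : ℕ) (S : Finset E) (L : E → Finset ℕ), S.card = n →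
    (∀ x y, x ≠ y → ∃ side : V → Bool, ∀ e ∈ S, od p q a b S e = 1 → L e = {x, y} →
      side (p e) ≠ side (q e)) →
    (∀ e ∈ S, od p q a b S e < (L e).card) → (∀ e ∈ S, od p q a b S e ≤ 1) →
    ∃ f : E → ℕ, (∀ e ∈ S, f e ∈ L e) ∧
      ∀ e ∈ S, ∀ g ∈ S, e ≠ g → ∀ w, Inc p q w e → Inc p q w g → f e ≠ f g := by
  classical
  intro n
  induction n using Nat.strong_induction_on with
  | _ n ih =>
    intro S L hS hb hod hone
    -- colouring one edge
    have step : ∀ e ∈ S, ∀ x ∈ L e, (∀ f ∈ S, Better p q a b e f → x ∉ L f) →
        ∃ f : E → ℕ, (∀ e ∈ S, f e ∈ L e) ∧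
          ∀ e ∈ S, ∀ g ∈ S, e ≠ g → ∀ w, Inc p q w e → Inc p q w g → f e ≠ f g := by
      intro e he x hx hnx
      let L' : E → Finset ℕ := fun f => if ∃ w, Inc p q w e ∧ Inc p q w f then (L f).erase x else L f
      have hS' : S \ {e} = S.erase e := by
        rw [sdiff_singleton_eq_erase]
      have hadj : ∀ f ∈ S.erase e, (∃ w, Inc p q w e ∧ Inc p q w f) →
          (x ∉ L f) ∨ od p q a b (S.erase e) f < od p q a b S f := by
        rintro f hf ⟨w, h1, h2⟩
        rcases better_total hl (Ne.symm (ne_of_mem_erase hf)) h1 h2 with h | h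
        · exact Or.inl (hnx f (mem_of_mem_erase hf) h)
        · exact Or.inr (od_lt (erase_subset e S) he (notMem_erase e S) h)
      refine glue (L' := L') (M := {e}) (x := x) (singleton_subset_iff.2 he) ?_ ?_ ?_ ?_ ?_
      · intro f hf g hg _ _ _
        rw [mem_singleton.1 hf, mem_singleton.1 hg]
      · intro f hf
        rw [mem_singleton.1 hf]
        exact hx
      · intro f _
        simp only [L']
        split_ifs
        · exact erase_subset _ _
        · exact Subset.refl _
      · intro f _ g hg w h1 h2
        rw [mem_singleton.1 hg] at h2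
        simp only [L']
        rw [if_pos ⟨w, h2, h1⟩]
        exact notMem_erase _ _
      · rw [hS']
        have hmono := fun f => od_mono (p := p) (q := q) (a := a) (b := b) (erase_subset e S) f
        refine ih (S.erase e).card (by rw [← hS]; exact card_erase_lt_of_mem he) (S.erase e) L' rfl
          ?_ ?_ ?_
        · intro y z hyz
          obtain ⟨side, hside⟩ := hb y z hyz
          refine ⟨side, fun f hf h1 h2 => ?_⟩
          have hfS := mem_of_mem_erase hf
          have h3 : od p q a b S f = 1 := le_antisymm (hone f hfS) (h1 ▸ hmono f)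
          apply hside f hfS h3
          simp only [L'] at h2
          split_ifs at h2 with h4
          · rcases hadj f hf h4 with h5 | h5
            · rwa [erase_eq_of_notMem h5] at h2
            · omega
          · exact h2
        · intro f hf
          have hfS := mem_of_mem_erase hf
          have h1 := hod f hfS
          have h2 := hmono f
          simp only [L']
          split_ifs with h4
          · rcases hadj f hf h4 with h5 | h5
            · rw [erase_eq_of_notMem h5]
              omega
            · have h6 := pred_card_le_card_erase (s := L f) (a := x)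
              omega
          · omega
        · exact fun f hf => (hmono f).trans (hone f (mem_of_mem_erase hf))
    by_cases hsink : ∃ e ∈ S, od p q a b S e = 0
    · obtain ⟨e, he, h0⟩ := hsink
      obtain ⟨x, hx⟩ : (L e).Nonempty := card_pos.1 (lt_of_le_of_lt (Nat.zero_le _) (hod e he))
      refine step e he x hx (fun f hf h => ?_)
      have := od_pos hf h
      omega
    push Not at hsink
    have h1 : ∀ e ∈ S, od p q a b S e = 1 := by
      intro e he
      have h1 := hone e he
      have h2 := hsink e he
      omega
    by_cases h3 : ∃ f ∈ S, 3 ≤ (L f).card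
    · obtain ⟨f, hf, h3⟩ := h3
      obtain ⟨g, hg1, hg2⟩ := ih (S.erase f).card (by rw [← hS]; exact card_erase_lt_of_mem hf)
        (S.erase f) L rfl (by
          intro y z hyz
          obtain ⟨side, hside⟩ := hb y z hyz
          exact ⟨side, fun e he _ h2 => hside e (mem_of_mem_erase he) (h1 e (mem_of_mem_erase he))
            h2⟩) (fun e he => lt_of_le_of_lt (od_mono (erase_subset f S) e)
            (hod e (mem_of_mem_erase he)))
          (fun e he => (od_mono (erase_subset f S) e).trans (hone e (mem_of_mem_erase he)))
      let N : Finset E := (S.erase f).filter fun e => ∃ w, Inc p q w e ∧ Inc p q w f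
      have hN : N.card ≤ 2 := by
        have hsub : N ⊆ (S.filter fun e => Better p q a b f e) ∪
            (S.filter fun e => Better p q a b e f) := by
          intro e he
          obtain ⟨he1, w, h4, h5⟩ := mem_filter.1 he
          rcases better_total hl (ne_of_mem_erase he1) h4 h5 with h | h
          · exact mem_union_right _ (mem_filter.2 ⟨mem_of_mem_erase he1, h⟩)
          · exact mem_union_left _ (mem_filter.2 ⟨mem_of_mem_erase he1, h⟩)
        have c1 : (S.filter fun e => Better p q a b f e).card ≤ 1 := by
          rw [card_le_one]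
          intro e he g hg
          by_contra hne
          have := od_two (mem_filter.1 he).1 (mem_filter.1 hg).1 hne (mem_filter.1 he).2
            (mem_filter.1 hg).2
          rw [h1 f hf] at this
          omega
        have c2 : (S.filter fun e => Better p q a b e f).card ≤ 1 := by
          rw [card_le_one]
          intro e he g hg
          exact worse_unique hl h1 hf (mem_filter.1 he).1 (mem_filter.1 hg).1 (mem_filter.1 he).2
            (mem_filter.1 hg).2
        have c3 := card_le_card hsub
        have c4 := card_union_le (S.filter fun e => Better p q a b f e)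
          (S.filter fun e => Better p q a b e f)
        omega
      obtain ⟨x, hx⟩ : (L f \ N.image g).Nonempty := by
        rw [← card_pos]
        have c1 := le_card_sdiff (N.image g) (L f)
        have c2 := card_image_le (s := N) (f := g)
        omega
      rw [mem_sdiff] at hx
      refine ⟨fun e => if e = f then x else g e, ?_, ?_⟩
      · intro e he
        by_cases h : e = f
        · simp only [h, if_true]
          exact hx.1
        · simp only [h, if_false]
          exact hg1 e (mem_erase.2 ⟨h, he⟩)
      · intro e he e' he' hne w hw hw'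
        by_cases h : e = f
        · have h' : e' ≠ f := fun h'' => hne (h.trans h''.symm)
          simp only [h, h', if_true, if_false]
          intro h4
          apply hx.2
          rw [h4]
          exact mem_image_of_mem g (mem_filter.2 ⟨mem_erase.2 ⟨h', he'⟩, w, hw', h ▸ hw⟩)
        · by_cases h' : e' = f
          · simp only [h, h', if_true, if_false]
            intro h4
            apply hx.2
            rw [← h4]
            exact mem_image_of_mem g (mem_filter.2 ⟨mem_erase.2 ⟨h, he⟩, w, hw, h' ▸ hw'⟩)
          · simp only [h, h', if_false]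
            exact hg2 e (mem_erase.2 ⟨h, he⟩) e' (mem_erase.2 ⟨h', he'⟩) hne w hw hw'
    push Not at h3
    have h2 : ∀ e ∈ S, (L e).card = 2 := by
      intro e he
      have k1 := hod e he
      have k2 := h3 e he
      rw [h1 e he] at k1
      omega
    by_cases hdiff : ∃ e ∈ S, ∃ f ∈ S, Better p q a b e f ∧ L e ≠ L f
    · obtain ⟨e, he, f, hf, hef, hne⟩ := hdiff
      obtain ⟨x, hx, hxf⟩ : ∃ x ∈ L e, x ∉ L f := by
        by_contra h
        push Not at h
        exact hne (eq_of_subset_of_card_le h (by rw [h2 e he, h2 f hf]))
      refine step e he x hx (fun g hg h => ?_)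
      have : g = f := by
        by_contra hgf
        have := od_two hg hf hgf h hef
        rw [h1 e he] at this
        omega
      rw [this]
      exact hxf
    push Not at hdiff
    rcases S.eq_empty_or_nonempty with rfl | ⟨e0, he0⟩
    · exact ⟨fun _ => 0, by simp, by simp⟩
    obtain ⟨x, y, hxy, hL0⟩ := card_eq_two.1 (h2 e0 he0)
    obtain ⟨side, hside⟩ := hb x y hxy
    let T : Finset E := S.filter fun e => L e = {x, y}
    have hT : T ⊆ S := filter_subset _ _
    obtain ⟨f1, hf1, hf1'⟩ := colour hl _ T L rfl (fun z => ⟨side, fun e he _ =>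
      hside e (mem_filter.1 he).1 (h1 e (mem_filter.1 he).1) (mem_filter.1 he).2⟩)
      (fun e he => lt_of_le_of_lt (od_mono hT e) (hod e (hT he)))
    have hcard : (S \ T).card < n := by
      rw [← hS]
      apply card_lt_card
      refine (ssubset_iff_of_subset sdiff_subset).2 ⟨e0, he0, fun h => ?_⟩
      exact (mem_sdiff.1 h).2 (mem_filter.2 ⟨he0, hL0⟩)
    obtain ⟨f2, hf2, hf2'⟩ := ih _ hcard (S \ T) L rfl (by
        intro y z hyz
        obtain ⟨side, hside⟩ := hb y z hyz
        exact ⟨side, fun e he _ h2 => hside e (mem_sdiff.1 he).1 (h1 e (mem_sdiff.1 he).1) h2⟩)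
      (fun e he => lt_of_le_of_lt (od_mono sdiff_subset e) (hod e (mem_sdiff.1 he).1))
      (fun e he => (od_mono sdiff_subset e).trans (hone e (mem_sdiff.1 he).1))
    have hno : ∀ e ∈ T, ∀ g ∈ S, g ∉ T → ∀ w, Inc p q w e → Inc p q w g → False := by
      intro e he g hg hgT w h4 h5
      apply hgT
      refine mem_filter.2 ⟨hg, ?_⟩
      have hne : e ≠ g := fun h => hgT (h ▸ he)
      rw [← (mem_filter.1 he).2]
      rcases better_total hl hne h4 h5 with h | h
      · exact (hdiff e (hT he) g hg h).symm
      · exact hdiff g hg e (hT he) h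
    refine ⟨fun e => if e ∈ T then f1 e else f2 e, ?_, ?_⟩
    · intro e he
      by_cases h : e ∈ T
      · simp only [h, if_true]
        exact hf1 e h
      · simp only [h, if_false]
        exact hf2 e (mem_sdiff.2 ⟨he, h⟩)
    · intro e he g hg hne w h4 h5
      by_cases h : e ∈ T
      · by_cases h' : g ∈ T
        · simp only [h, h', if_true]
          exact hf1' e h g h' hne w h4 h5
        · exact (hno e h g hg h' w h4 h5).elim
      · by_cases h' : g ∈ T
        · exact (hno g h' e he h w h5 h4).elim
        · simp only [h, h', if_false]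
          exact hf2' e (mem_sdiff.2 ⟨he, h⟩) g (mem_sdiff.2 ⟨hg, h'⟩) hne w h4 h5

/-- **List colourings by stable matchings, with exceptional colours.** -/
theorem colour2 [DecidableEq E]
    (hl : ∀ w e f, Inc p q w e → Inc p q w f → lab p a b w e = lab p a b w f → e = f) (N : ℕ) :
    ∀ (n : ℕ) (S : Finset E) (L : E → Finset ℕ), S.card = n →
    (∀ x < N, ∃ side : V → Bool, ∀ e ∈ S, x ∈ L e → (∃ y ∈ L e, x < y) →
      side (p e) ≠ side (q e)) →
    (∀ x y, x ≠ y → ∃ side : V → Bool, ∀ e ∈ S, ((L e).filter fun z => N ≤ z) = {x, y} →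
      side (p e) ≠ side (q e)) →
    (∀ e ∈ S, od p q a b S e < (L e).card) →
    (∀ e ∈ S, od p q a b S e ≤ ((L e).filter fun z => z < N).card + 1) →
    ∃ f : E → ℕ, (∀ e ∈ S, f e ∈ L e) ∧
      ∀ e ∈ S, ∀ g ∈ S, e ≠ g → ∀ w, Inc p q w e → Inc p q w g → f e ≠ f g := by
  classical
  intro n
  induction n using Nat.strong_induction_on with
  | _ n ih =>
    intro S L hS hb1 hb2 hod hod2
    by_cases hsmall : ∃ e ∈ S, ∃ x ∈ L e, x < N
    · have hU : ((S.biUnion L).filter fun z => z < N).Nonempty := by
        obtain ⟨e, he, x, hx, hxN⟩ := hsmall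
        exact ⟨x, mem_filter.2 ⟨mem_biUnion.2 ⟨e, he, hx⟩, hxN⟩⟩
      obtain ⟨x, hx, hmin⟩ := exists_min_image _ id hU
      rw [mem_filter, mem_biUnion] at hx
      obtain ⟨⟨e0, he0, hx0⟩, hxN⟩ := hx
      have hmin' : ∀ e ∈ S, ∀ y ∈ L e, x ≤ y := by
        intro e he y hy
        by_cases h : y < N
        · exact hmin y (mem_filter.2 ⟨mem_biUnion.2 ⟨e, he, hy⟩, h⟩)
        · omega
      obtain ⟨side, hside⟩ := hb1 x hxN
      let T : Finset E := S.filter fun e => x ∈ L e
      let T1 : Finset E := T.filter fun e => ∀ y ∈ L e, y ≤ x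
      have hT : T ⊆ S := filter_subset _ _
      obtain ⟨M, hMT, hM1, hM2⟩ := stableS hl side T T1 (filter_subset _ _) (by
        intro e he f hf hb
        have heT := (mem_filter.1 he).1
        have h1 : L e ⊆ {x} := by
          intro y hy
          exact mem_singleton.2 (le_antisymm ((mem_filter.1 he).2 y hy) (hmin' e (hT heT) y hy))
        have h2 := card_le_card h1
        rw [card_singleton] at h2
        have h3 := hod e (hT heT)
        have h4 := od_pos (hT hf) hb
        omega) (by
        intro e he he1
        apply hside e (hT he) (mem_filter.1 he).2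
        by_contra h
        push Not at h
        exact he1 (mem_filter.2 ⟨he, h⟩))
      have hMS : M ⊆ S := hMT.trans hT
      have hMne : M.Nonempty := by
        by_contra h
        rw [not_nonempty_iff_eq_empty] at h
        subst h
        obtain ⟨w, f, hf, -⟩ := hM2 e0 (mem_filter.2 ⟨he0, hx0⟩) (notMem_empty _)
        exact notMem_empty _ hf
      have hcard : (S \ M).card < n := by
        rw [← hS]
        apply card_lt_card
        obtain ⟨e, he⟩ := hMne
        exact (ssubset_iff_of_subset sdiff_subset).2 ⟨e, hMS he, fun h => (mem_sdiff.1 h).2 he⟩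
      have hlt : ∀ e ∈ S \ M, x ∈ L e → od p q a b (S \ M) e < od p q a b S e := by
        intro e he hxe
        obtain ⟨w, g, hg, h1, h2, h3⟩ := hM2 e (mem_filter.2 ⟨(mem_sdiff.1 he).1, hxe⟩)
          (mem_sdiff.1 he).2
        exact od_lt sdiff_subset (hMS hg) (fun h => (mem_sdiff.1 h).2 hg) ⟨w, h1, h2, h3⟩
      refine glue (L' := fun e => (L e).erase x) (M := M) (x := x) hMS hM1
        (fun e he => (mem_filter.1 (hMT he)).2) (fun e _ => erase_subset _ _)
        (fun e _ f _ w _ _ => notMem_erase _ _) ?_
      refine ih _ hcard (S \ M) (fun e => (L e).erase x) rfl ?_ ?_ ?_ ?_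
      · intro y hy
        obtain ⟨side', hside'⟩ := hb1 y hy
        refine ⟨side', fun e he h1 h2 => hside' e (mem_sdiff.1 he).1 (mem_of_mem_erase h1) ?_⟩
        obtain ⟨z, hz, hyz⟩ := h2
        exact ⟨z, mem_of_mem_erase hz, hyz⟩
      · intro y z hyz
        obtain ⟨side', hside'⟩ := hb2 y z hyz
        refine ⟨side', fun e he h1 => hside' e (mem_sdiff.1 he).1 ?_⟩
        rw [← h1]
        ext u
        simp only [mem_filter, mem_erase]
        constructor
        · rintro ⟨h2, h3⟩
          exact ⟨⟨by omega, h2⟩, h3⟩
        · rintro ⟨⟨_, h2⟩, h3⟩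
          exact ⟨h2, h3⟩
      · intro e he
        have h1 := hod e (mem_sdiff.1 he).1
        by_cases hxe : x ∈ L e
        · rw [card_erase_of_mem hxe]
          have := hlt e he hxe
          omega
        · rw [erase_eq_of_notMem hxe]
          exact lt_of_le_of_lt (od_mono sdiff_subset e) h1
      · intro e he
        have h1 := hod2 e (mem_sdiff.1 he).1
        by_cases hxe : x ∈ L e
        · have h2 : ((L e).erase x).filter (fun z => z < N) =
              ((L e).filter fun z => z < N).erase x := by
            rw [filter_erase]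
          rw [h2, card_erase_of_mem (mem_filter.2 ⟨hxe, hxN⟩)]
          have := hlt e he hxe
          omega
        · rw [erase_eq_of_notMem hxe]
          exact (od_mono sdiff_subset e).trans h1
    · push Not at hsmall
      have h0 : ∀ e ∈ S, ((L e).filter fun z => N ≤ z) = L e := by
        intro e he
        exact filter_true_of_mem (hsmall e he)
      refine last hl _ S L rfl ?_ hod ?_
      · intro x y hxy
        obtain ⟨side, hside⟩ := hb2 x y hxy
        exact ⟨side, fun e he _ h => hside e he (by rw [h0 e he]; exact h)⟩
      · intro e he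
        have h1 := hod2 e he
        have h2 : ((L e).filter fun z => z < N) = ∅ := by
          apply filter_false_of_mem
          intro z hz
          have := hsmall e he z hz
          omega
        rw [h2, card_empty] at h1
        omega

end

end Pool.Agent.H8.Cwb
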