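import Pool.Agent.H8.Cwb.Stable
import Pool.Graph.R_pool_sql_team_3845a38e.H1.EulerOrient

/-!
# Balanced orientations
-/

set_option autoImplicit false

namespace Pool.Agent.H8.Cwb

open Finset

/-- **Balanced orientations.** -/
theorem orient {V E : Type} [Fintype V] [Fintype E] [DecidableEq V] [DecidableEq E]
    (s t : E → V) :
    ∃ p q : E → V, (∀ e, (p e = s e ∧ q e = t e) ∨ (p e = t e ∧ q e = s e)) ∧
      ∀ v, 2 * (univ.filter fun e => p e = v).card ≤
        (univ.filter fun e => s e = v).card + (univ.filter fun e => t e = v).card + 1 := by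
  classical
  let dg : V → ℕ := fun v =>
    (univ.filter fun e => s e = v).card + (univ.filter fun e => t e = v).card
  let S : E ⊕ V → Option V := fun x => match x with
    | Sum.inl e => some (s e)
    | Sum.inr v => if Odd (dg v) then some v else none
  let T : E ⊕ V → Option V := fun x => match x with
    | Sum.inl e => some (t e)
    | Sum.inr _ => none
  let b : E ⊕ V → Option V → ℤ := fun x => Pi.single (S x) 1 - Pi.single (T x) 1
  have hb : ∀ x v, b x v = (if S x = v then 1 else 0) - (if T x = v then 1 else 0) := by
    intro x v
    simp only [b, Pi.sub_apply, Pi.single_apply]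
    congr 1
    · by_cases h : S x = v
      · rw [if_pos h, if_pos h.symm]
      · rw [if_neg h, if_neg (fun h' => h h'.symm)]
    · by_cases h : T x = v
      · rw [if_pos h, if_pos h.symm]
      · rw [if_neg h, if_neg (fun h' => h h'.symm)]
  have hsum1 : ∀ v : V, ∑ x, b x (some v) = ((univ.filter fun e => s e = v).card : ℤ) -
      ((univ.filter fun e => t e = v).card : ℤ) + (if Odd (dg v) then 1 else 0) := by
    intro v
    rw [Fintype.sum_sum_type]
    have h1 : ∑ e, b (Sum.inl e) (some v) = ((univ.filter fun e => s e = v).card : ℤ) -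
        ((univ.filter fun e => t e = v).card : ℤ) := by
      simp only [hb, S, T, Option.some.injEq, sum_sub_distrib]
      rw [← Finset.natCast_card_filter, ← Finset.natCast_card_filter]
    have h2 : ∑ w, b (Sum.inr w) (some v) = (if Odd (dg v) then 1 else 0) := by
      simp only [hb, S, T]
      rw [Finset.sum_eq_single v]
      · by_cases h : Odd (dg v)
        · simp [h]
        · simp [h]
      · intro w _ hw
        by_cases h : Odd (dg w)
        · simp [h, hw]
        · simp [h]
      · intro h
        exact absurd (mem_univ v) h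
    rw [h1, h2]
  have hpar1 : ∀ v : V, (2 : ℤ) ∣ ∑ x, b x (some v) := by
    intro v
    rw [hsum1]
    have h3 : (dg v : ℤ) = ((univ.filter fun e => s e = v).card : ℤ) +
        ((univ.filter fun e => t e = v).card : ℤ) := by
      simp only [dg]
      push_cast
      ring
    by_cases h : Odd (dg v)
    · rw [if_pos h]
      obtain ⟨c, hc⟩ := h
      have h4 : (dg v : ℤ) = 2 * c + 1 := by exact_mod_cast hc
      omega
    · rw [if_neg h]
      rw [Nat.not_odd_iff_even] at h
      obtain ⟨c, hc⟩ := h
      have h4 : (dg v : ℤ) = c + c := by exact_mod_cast hc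
      omega
  have hpar : ∀ v : Option V, (2 : ℤ) ∣ ∑ x, b x v := by
    intro v
    rcases v with _ | v
    · have h1 : ∑ v : Option V, ∑ x, b x v = 0 := by
        rw [sum_comm]
        apply sum_eq_zero
        intro x _
        simp only [hb, sum_sub_distrib, sum_ite_eq, mem_univ, if_true, sub_self]
      rw [Fintype.sum_option] at h1
      have h2 : ∑ x, b x none = - ∑ l : V, ∑ x, b x (some l) := by linarith
      rw [h2]
      exact (dvd_neg).2 (dvd_sum fun l _ => hpar1 l)
    · exact hpar1 v
  obtain ⟨P, -, hP⟩ := Pool.Agent.H1.EulerOrient.euler (univ : Finset (E ⊕ V)).card b univ rfl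
    (fun x _ => ⟨S x, T x, rfl⟩) hpar
  refine ⟨fun e => if Sum.inl e ∈ P then s e else t e, fun e => if Sum.inl e ∈ P then t e else s e,
    ?_, ?_⟩
  · intro e
    by_cases h : Sum.inl e ∈ P
    · simp [h]
    · simp [h]
  · intro v
    change 2 * (univ.filter fun e => (if Sum.inl e ∈ P then s e else t e) = v).card ≤ dg v + 1
    have h1 := congrFun hP (some v)
    unfold Pool.Agent.H1.EulerOrient.sg at h1
    rw [Finset.sum_apply, Fintype.sum_sum_type] at h1
    have h2 : ∑ e : E, (if Sum.inl e ∈ P then b (Sum.inl e) else - b (Sum.inl e)) (some v) =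
        ((univ.filter fun e => (if Sum.inl e ∈ P then s e else t e) = v).card : ℤ) -
        ((univ.filter fun e => (if Sum.inl e ∈ P then t e else s e) = v).card : ℤ) := by
      rw [Finset.natCast_card_filter, Finset.natCast_card_filter, ← sum_sub_distrib]
      apply sum_congr rfl
      intro e _
      by_cases h : Sum.inl e ∈ P
      · simp only [h, if_true, hb, S, T, Option.some.injEq]
      · simp only [h, if_false, Pi.neg_apply, hb, S, T, Option.some.injEq]
        ring
    have h3 : ∃ z : ℤ, ∑ w : V, (if Sum.inr w ∈ P then b (Sum.inr w) else - b (Sum.inr w)) (some v) =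
        z ∧ (-1 ≤ z ∧ z ≤ 1) ∧ (¬ Odd (dg v) → z = 0) := by
      refine ⟨_, rfl, ?_⟩
      rw [Finset.sum_eq_single v]
      · by_cases h : Odd (dg v)
        · by_cases h' : Sum.inr v ∈ P
          · simp [h', hb, S, T, h]
          · simp [h', hb, S, T, h]
        · by_cases h' : Sum.inr v ∈ P
          · simp [h', hb, S, T, h]
          · simp [h', hb, S, T, h]
      · intro w _ hw
        by_cases h : Odd (dg w)
        · by_cases h' : Sum.inr w ∈ P
          · simp [h', hb, S, T, h, hw]
          · simp [h', hb, S, T, h, hw]
        · by_cases h' : Sum.inr w ∈ P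
          · simp [h', hb, S, T, h]
          · simp [h', hb, S, T, h]
      · intro h
        exact absurd (mem_univ v) h
    obtain ⟨z, hz, hz1, hz2⟩ := h3
    rw [h2, hz] at h1
    have h0 : (0 : Option V → ℤ) (some v) = 0 := rfl
    rw [h0] at h1
    have h4 : (univ.filter fun e => (if Sum.inl e ∈ P then s e else t e) = v).card +
        (univ.filter fun e => (if Sum.inl e ∈ P then t e else s e) = v).card = dg v := by
      simp only [dg]
      rw [card_filter, card_filter, card_filter, card_filter, ← sum_add_distrib,
        ← sum_add_distrib]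
      apply sum_congr rfl
      intro e _
      by_cases h : Sum.inl e ∈ P
      · simp only [h, if_true]
      · simp only [h, if_false]
        ring
    by_cases h : Odd (dg v)
    · obtain ⟨c, hc⟩ := h
      omega
    · have h7 := hz2 h
      omega

end Pool.Agent.H8.Cwb
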