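import Pool.Agent.H8.Cwb.Last
import Pool.Agent.H8.Cwb.Bkw
import Pool.Agent.H8.Cwb.Orient

/-!
# The main theorems
-/

set_option autoImplicit false

namespace Pool.Agent.H8.Cwb

open Finset

/-- The edges in `F` form a bipartite graph. -/
def Bip {V E : Type} (s t : E → V) (F : Set E) : Prop :=
  ∃ side : V → Bool, ∀ e ∈ F, side (s e) ≠ side (t e)

/-- The number of the edges outside `M` with the tail `v`. -/
noncomputable def outDeg {V E : Type} (p : E → V) (M : Set E) (v : V) : ℕ :=
  {e | e ∉ M ∧ p e = v}.ncard

/-- The degree of `v`. -/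
noncomputable def deg {V E : Type} (s t : E → V) (v : V) : ℕ := {e | s e = v ∨ t e = v}.ncard

/-- The number of the edges of `M` at `v`. -/
noncomputable def mDeg {V E : Type} (s t : E → V) (M : Set E) (v : V) : ℕ :=
  {e | e ∈ M ∧ (s e = v ∨ t e = v)}.ncard

open Classical in
/-- The numbers of the colours for an oriented multigraph with a matching `M`. -/
noncomputable def need {V E : Type} (p q : E → V) (M : Set E) (e : E) : ℕ :=
  if e ∈ M then outDeg p M (p e) + outDeg p M (q e) + 1
  else max (outDeg p M (p e) + outDeg p M (q e) + mDeg p q M (q e)) (deg p q (q e))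

/-- The ranks. -/
theorem ranks {V E : Type} [Fintype V] [DecidableEq V] [Fintype E] (p q : E → V)
    (hpq : ∀ e, p e ≠ q e) (M : Set E)
    (hM : ∀ e ∈ M, ∀ f ∈ M, ∀ w, (p e = w ∨ q e = w) → (p f = w ∨ q f = w) → e = f) :
    ∃ a b : E → ℕ,
      (∀ w e f, Inc p q w e → Inc p q w f → lab p a b w e = lab p a b w f → e = f) ∧
      ∀ e, od p q a b univ e + 1 ≤ need p q M e := by
  classical
  let S : Finset E := univ.filter fun e => e ∉ M
  have hS : ∀ e, e ∈ S ↔ e ∉ M := fun e => by simp [S]
  obtain ⟨a0, b0, h1, h2, h3⟩ := bkw p q _ S rfl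
  obtain ⟨K, hK⟩ : ∃ K : ℕ, ∀ e, a0 e < K :=
    ⟨univ.sup a0 + 1, fun e => Nat.lt_succ_of_le (le_sup (mem_univ e))⟩
  let a : E → ℕ := fun e => if e ∈ M then K else a0 e
  let b : E → ℕ := fun e => if e ∈ M then K else K + 1 + b0 e
  have aM : ∀ e, e ∈ M → a e = K := fun e he => if_pos he
  have aN : ∀ e, e ∉ M → a e = a0 e := fun e he => if_neg he
  have bM : ∀ e, e ∈ M → b e = K := fun e he => if_pos he
  have bN : ∀ e, e ∉ M → b e = K + 1 + b0 e := fun e he => if_neg he
  have lp : ∀ w e, p e = w → lab p a b w e = a e := fun w e h => if_pos h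
  have lq : ∀ w e, p e ≠ w → lab p a b w e = b e := fun w e h => if_neg h
  have lM : ∀ w e, e ∈ M → lab p a b w e = K := by
    intro w e he
    unfold lab
    split_ifs
    · exact aM e he
    · exact bM e he
  have hout : ∀ v, dg p S v = outDeg p M v := by
    intro v
    unfold dg outDeg
    rw [← Set.ncard_coe_finset]
    congr 1
    ext e
    simp [S]
  have hmd : ∀ v, (univ.filter fun e => e ∈ M ∧ (p e = v ∨ q e = v)).card = mDeg p q M v := by
    intro v
    unfold mDeg
    rw [← Set.ncard_coe_finset]
    congr 1
    ext e
    simp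
  have hin : ∀ v, outDeg p M v + dg q S v + mDeg p q M v ≤ deg p q v := by
    intro v
    rw [← hout, ← hmd]
    unfold dg deg
    have e1 : {e | p e = v ∨ q e = v} =
        ((univ.filter fun e => p e = v ∨ q e = v : Finset E) : Set E) := by
      ext e
      simp
    rw [e1, Set.ncard_coe_finset]
    have d1 : Disjoint (S.filter fun e => p e = v) (S.filter fun e => q e = v) := by
      rw [disjoint_left]
      intro e h4 h5
      exact hpq e ((mem_filter.1 h4).2.trans (mem_filter.1 h5).2.symm)
    have c1 : (S.filter fun e => p e = v).card + (S.filter fun e => q e = v).card +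
        ((univ.filter fun e => e ∈ M ∧ (p e = v ∨ q e = v))).card ≤
        (univ.filter fun e => p e = v ∨ q e = v).card := by
      rw [← card_union_of_disjoint d1, ← card_union_of_disjoint]
      · apply card_le_card
        intro e he
        refine mem_filter.2 ⟨mem_univ _, ?_⟩
        rcases mem_union.1 he with he | he
        · rcases mem_union.1 he with he | he
          · exact Or.inl (mem_filter.1 he).2
          · exact Or.inr (mem_filter.1 he).2
        · exact (mem_filter.1 he).2.2
      · rw [disjoint_left]
        intro e h4 h5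
        have h6 := (mem_filter.1 h5).2.1
        rcases mem_union.1 h4 with h4 | h4
        · exact ((hS e).1 (mem_filter.1 h4).1) h6
        · exact ((hS e).1 (mem_filter.1 h4).1) h6
    exact c1
  refine ⟨a, b, ?_, ?_⟩
  · intro w e f he hf hlab
    by_cases h4 : e ∈ M
    · by_cases h5 : f ∈ M
      · exact hM e h4 f h5 w he hf
      · rw [lM w e h4] at hlab
        by_cases h6 : p f = w
        · rw [lp w f h6, aN f h5] at hlab
          have := hK f
          omega
        · rw [lq w f h6, bN f h5] at hlab
          omega
    · by_cases h5 : f ∈ M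
      · rw [lM w f h5] at hlab
        by_cases h6 : p e = w
        · rw [lp w e h6, aN e h4] at hlab
          have := hK e
          omega
        · rw [lq w e h6, bN e h4] at hlab
          omega
      · by_cases h6 : p e = w
        · rw [lp w e h6, aN e h4] at hlab
          by_cases h7 : p f = w
          · rw [lp w f h7, aN f h5] at hlab
            exact h1 e ((hS e).2 h4) f ((hS f).2 h5) (h6.trans h7.symm) hlab
          · rw [lq w f h7, bN f h5] at hlab
            have := hK e
            omega
        · rw [lq w e h6, bN e h4] at hlab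
          by_cases h7 : p f = w
          · rw [lp w f h7, aN f h5] at hlab
            have := hK f
            omega
          · rw [lq w f h7, bN f h5] at hlab
            exact h2 e ((hS e).2 h4) f ((hS f).2 h5)
              ((he.resolve_left h6).trans (hf.resolve_left h7).symm) (by omega)
  · intro e
    have hqe : p e ≠ q e := hpq e
    by_cases h4 : e ∈ M
    · have key : ∀ v, (univ.filter fun f => Inc p q v f ∧
          lab p a b v f < lab p a b v e).card ≤ outDeg p M v := by
        intro v
        rw [← hout v]
        apply card_le_card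
        intro f hf
        obtain ⟨-, hf1, hf2⟩ := mem_filter.1 hf
        rw [lM v e h4] at hf2
        have hfM : f ∉ M := by
          intro h5
          rw [lM v f h5] at hf2
          omega
        refine mem_filter.2 ⟨(hS f).2 hfM, ?_⟩
        by_contra h6
        rw [lq v f h6, bN f hfM] at hf2
        omega
      have k1 := key (p e)
      have k2 := key (q e)
      unfold need od
      rw [if_pos h4]
      omega
    · have k1 : (univ.filter fun f => Inc p q (p e) f ∧
          lab p a b (p e) f < lab p a b (p e) e).card ≤
          (S.filter fun f => p f = p e ∧ a0 f < a0 e).card := by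
        apply card_le_card
        intro f hf
        obtain ⟨-, hf1, hf2⟩ := mem_filter.1 hf
        rw [lp (p e) e rfl, aN e h4] at hf2
        have hKe := hK e
        have hfM : f ∉ M := by
          intro h5
          rw [lM _ f h5] at hf2
          omega
        have h6 : p f = p e := by
          by_contra h6
          rw [lq _ f h6, bN f hfM] at hf2
          omega
        rw [lp _ f h6, aN f hfM] at hf2
        exact mem_filter.2 ⟨(hS f).2 hfM, h6, hf2⟩
      have k2 : (univ.filter fun f => Inc p q (q e) f ∧
          lab p a b (q e) f < lab p a b (q e) e).card ≤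
          outDeg p M (q e) + mDeg p q M (q e) +
          (S.filter fun f => q f = q e ∧ b0 f < b0 e).card := by
        have hsub : (univ.filter fun f => Inc p q (q e) f ∧
            lab p a b (q e) f < lab p a b (q e) e) ⊆
            ((S.filter fun f => p f = q e) ∪
              (univ.filter fun f => f ∈ M ∧ (p f = q e ∨ q f = q e))) ∪
            (S.filter fun f => q f = q e ∧ b0 f < b0 e) := by
          intro f hf
          obtain ⟨-, hf1, hf2⟩ := mem_filter.1 hf
          rw [lq (q e) e hqe, bN e h4] at hf2
          by_cases h5 : f ∈ M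
          · exact mem_union_left _ (mem_union_right _ (mem_filter.2 ⟨mem_univ _, h5, hf1⟩))
          · by_cases h6 : p f = q e
            · exact mem_union_left _ (mem_union_left _ (mem_filter.2 ⟨(hS f).2 h5, h6⟩))
            · rw [lq _ f h6, bN f h5] at hf2
              exact mem_union_right _ (mem_filter.2 ⟨(hS f).2 h5, hf1.resolve_left h6, by omega⟩)
        have c1 := (card_le_card hsub).trans (card_union_le _ _)
        have c2 := card_union_le (S.filter fun f => p f = q e)
          (univ.filter fun f => f ∈ M ∧ (p f = q e ∨ q f = q e))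
        have c3 : (S.filter fun f => p f = q e).card = outDeg p M (q e) := hout (q e)
        have c4 := hmd (q e)
        omega
      have k3 := h3 e ((hS e).2 h4)
      have k4 := hin (q e)
      have k5 := hout (p e)
      unfold need od
      rw [if_neg h4]
      rcases max_cases (dg p S (p e)) (dg q S (q e)) with ⟨h5, _⟩ | ⟨h5, _⟩
      · refine le_trans ?_ (le_max_left _ _)
        rw [h5] at k3
        omega
      · refine le_trans ?_ (le_max_right _ _)
        rw [h5] at k3
        omega

/-- A proper colouring of the edges from the lists. -/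
def EdgeCol {V E : Type} (s t : E → V) (L : E → Finset ℕ) : Prop :=
  ∃ f : E → ℕ, (∀ e, f e ∈ L e) ∧
    ∀ e g, e ≠ g → ∀ w, (s e = w ∨ t e = w) → (s g = w ∨ t g = w) → f e ≠ f g

/-- The conditions on the lists. -/
def Adm {V E : Type} (s t : E → V) (N : ℕ) (L : E → Finset ℕ) : Prop :=
  (∀ x < N, Bip s t {e | x ∈ L e ∧ ∃ y ∈ L e, x < y}) ∧
  ∀ x y, x ≠ y → Bip s t {e | ((L e).filter fun z => N ≤ z) = {x, y}}

/-- **The main theorem for oriented multigraphs.** -/
theorem oriented {V E : Type} [Finite V] [Finite E] (p q : E → V) (hpq : ∀ e, p e ≠ q e)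
    (M : Set E)
    (hM : ∀ e ∈ M, ∀ f ∈ M, ∀ w, (p e = w ∨ q e = w) → (p f = w ∨ q f = w) → e = f) (N : ℕ)
    (L : E → Finset ℕ) (h1 : ∀ e, need p q M e ≤ (L e).card)
    (h2 : ∀ e, need p q M e ≤ ((L e).filter fun z => z < N).card + 2) (hL : Adm p q N L) :
    EdgeCol p q L := by
  classical
  have := Fintype.ofFinite V
  have := Fintype.ofFinite E
  obtain ⟨a, b, hl, hod⟩ := ranks p q hpq M hM
  obtain ⟨f, hf1, hf2⟩ := colour2 hl N _ univ L rfl (by
    intro x hx
    obtain ⟨side, hside⟩ := hL.1 x hx
    exact ⟨side, fun e _ h3 h4 => hside e ⟨h3, h4⟩⟩) (by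
    intro x y hxy
    obtain ⟨side, hside⟩ := hL.2 x y hxy
    exact ⟨side, fun e _ h3 => hside e h3⟩) (by
    intro e _
    have := hod e
    have := h1 e
    omega) (by
    intro e _
    have := hod e
    have := h2 e
    omega)
  exact ⟨f, fun e => hf1 e (mem_univ e), fun e g hne w h3 h4 =>
    hf2 e (mem_univ e) g (mem_univ g) hne w h3 h4⟩

end Pool.Agent.H8.Cwb
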