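import Pool.Agent.H8.Cwb.Stable

/-!
# List colourings by stable matchings, with exceptional colours

The colours are processed in increasing order. The last colour of a list is free, and if the
exceptional colours come last then two of them may be in a list.
-/

set_option autoImplicit false

namespace Pool.Agent.H8.Cwb

open Finset

section

variable {V E : Type} [DecidableEq V] {p q : E → V} {a b : E → ℕ}

/-- `f` is better than `e` at a common vertex. -/
def Better (p q : E → V) (a b : E → ℕ) (e f : E) : Prop :=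
  ∃ w, Inc p q w e ∧ Inc p q w f ∧ lab p a b w f < lab p a b w e

/-- Stable matchings when some edges have no better edges. -/
theorem stableS [DecidableEq E]
    (hl : ∀ w e f, Inc p q w e → Inc p q w f → lab p a b w e = lab p a b w f → e = f)
    (side : V → Bool) (T T1 : Finset E) (h1 : T1 ⊆ T)
    (hsink : ∀ e ∈ T1, ∀ f ∈ T, ¬ Better p q a b e f)
    (hside : ∀ e ∈ T, e ∉ T1 → side (p e) ≠ side (q e)) :
    ∃ M ⊆ T, (∀ e ∈ M, ∀ f ∈ M, ∀ w, Inc p q w e → Inc p q w f → e = f) ∧
      ∀ e ∈ T, e ∉ M → ∃ w, ∃ f ∈ M, Inc p q w e ∧ Inc p q w f ∧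
        lab p a b w f < lab p a b w e := by
  classical
  have hT1 : ∀ e ∈ T1, ∀ f ∈ T, e ≠ f → ∀ w, Inc p q w e → Inc p q w f →
      lab p a b w e < lab p a b w f := by
    intro e he f hf hne w h2 h3
    rcases lt_trichotomy (lab p a b w e) (lab p a b w f) with h | h | h
    · exact h
    · exact absurd (hl w e f h2 h3 h) hne
    · exact absurd ⟨w, h2, h3, h⟩ (hsink e he f hf)
  obtain ⟨M, hM1, hM2, hM3⟩ := stable hl side _
    (T.filter fun e => e ∉ T1 ∧ ∀ f ∈ T1, ∀ w, ¬ (Inc p q w e ∧ Inc p q w f)) rfl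
    (fun e he => hside e (mem_filter.1 he).1 (mem_filter.1 he).2.1)
  refine ⟨T1 ∪ M, union_subset h1 (hM1.trans (filter_subset _ _)), ?_, ?_⟩
  · intro e he f hf w h2 h3
    rcases mem_union.1 he with he | he
    · rcases mem_union.1 hf with hf | hf
      · by_contra hne
        have k1 := hT1 e he f (h1 hf) hne w h2 h3
        have k2 := hT1 f hf e (h1 he) (Ne.symm hne) w h3 h2
        omega
      · exact absurd ⟨h3, h2⟩ ((mem_filter.1 (hM1 hf)).2.2 e he w)
    · rcases mem_union.1 hf with hf | hf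
      · exact absurd ⟨h2, h3⟩ ((mem_filter.1 (hM1 he)).2.2 f hf w)
      · exact hM2 e he f hf w h2 h3
  · intro e he heM
    have he1 : e ∉ T1 := fun h => heM (mem_union_left _ h)
    by_cases h : ∀ f ∈ T1, ∀ w, ¬ (Inc p q w e ∧ Inc p q w f)
    · obtain ⟨w, f, hf, h2⟩ := hM3 e (mem_filter.2 ⟨he, he1, h⟩)
        (fun h => heM (mem_union_right _ h))
      exact ⟨w, f, mem_union_right _ hf, h2⟩
    · push Not at h
      obtain ⟨f, hf, w, h2, h3⟩ := h
      exact ⟨w, f, mem_union_left _ hf, h2, h3,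
        hT1 f hf e he (fun h => he1 (h ▸ hf)) w h3 h2⟩

theorem od_mono [DecidableEq E] {S S' : Finset E} (h : S' ⊆ S) (e : E) :
    od p q a b S' e ≤ od p q a b S e :=
  Nat.add_le_add (card_le_card (filter_subset_filter _ h)) (card_le_card (filter_subset_filter _ h))

/-- Deleting a better edge decreases the number of the better edges. -/
theorem od_lt [DecidableEq E] {S S' : Finset E} (h : S' ⊆ S) {e f : E} (hf : f ∈ S)
    (hf' : f ∉ S') (hb : Better p q a b e f) : od p q a b S' e < od p q a b S e := by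
  have hm1 : (S'.filter fun f => Inc p q (p e) f ∧ lab p a b (p e) f < lab p a b (p e) e) ⊆
      (S.filter fun f => Inc p q (p e) f ∧ lab p a b (p e) f < lab p a b (p e) e) :=
    filter_subset_filter _ h
  have hm2 : (S'.filter fun f => Inc p q (q e) f ∧ lab p a b (q e) f < lab p a b (q e) e) ⊆
      (S.filter fun f => Inc p q (q e) f ∧ lab p a b (q e) f < lab p a b (q e) e) :=
    filter_subset_filter _ h
  obtain ⟨w, hwe, hwf, hlt⟩ := hb
  unfold od
  rcases hwe with rfl | rfl
  · have h2 := card_lt_card ((ssubset_iff_of_subset hm1).2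
      ⟨f, mem_filter.2 ⟨hf, hwf, hlt⟩, fun h => hf' (mem_filter.1 h).1⟩)
    have h3 := card_le_card hm2
    omega
  · have h2 := card_lt_card ((ssubset_iff_of_subset hm2).2
      ⟨f, mem_filter.2 ⟨hf, hwf, hlt⟩, fun h => hf' (mem_filter.1 h).1⟩)
    have h3 := card_le_card hm1
    omega

/-- If there is a better edge then the number is positive. -/
theorem od_pos [DecidableEq E] {S : Finset E} {e f : E} (hf : f ∈ S)
    (hb : Better p q a b e f) : 0 < od p q a b S e := by
  have := od_lt (p := p) (q := q) (a := a) (b := b) (erase_subset f S) hf (notMem_erase f S) hb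
  omega

/-- Two better edges. -/
theorem od_two [DecidableEq E] {S : Finset E} {e f g : E} (hf : f ∈ S) (hg : g ∈ S) (hfg : f ≠ g)
    (hb : Better p q a b e f) (hb' : Better p q a b e g) : 2 ≤ od p q a b S e := by
  have h1 := od_lt (p := p) (q := q) (a := a) (b := b) (erase_subset f S) hf (notMem_erase f S) hb
  have h2 := od_pos (p := p) (q := q) (a := a) (b := b) (S := S.erase f)
    (mem_erase.2 ⟨Ne.symm hfg, hg⟩) hb'
  omega

/-- A better edge exists if the number is positive. -/
theorem exists_better [DecidableEq E] {S : Finset E} {e : E} (h : 0 < od p q a b S e) :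
    ∃ f ∈ S, Better p q a b e f := by
  unfold od at h
  rcases Nat.eq_zero_or_pos (S.filter fun f => Inc p q (p e) f ∧
    lab p a b (p e) f < lab p a b (p e) e).card with h1 | h1
  · obtain ⟨f, hf⟩ := card_pos.1 (show 0 < (S.filter fun f => Inc p q (q e) f ∧
      lab p a b (q e) f < lab p a b (q e) e).card by omega)
    rw [mem_filter] at hf
    exact ⟨f, hf.1, q e, Or.inr rfl, hf.2⟩
  · obtain ⟨f, hf⟩ := card_pos.1 h1
    rw [mem_filter] at hf
    exact ⟨f, hf.1, p e, Or.inl rfl, hf.2⟩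

/-- Extending a colouring by one matching. -/
theorem glue [DecidableEq E] {S M : Finset E} {L L' : E → Finset ℕ} {x : ℕ} (hMS : M ⊆ S)
    (hM : ∀ e ∈ M, ∀ f ∈ M, ∀ w, Inc p q w e → Inc p q w f → e = f) (hx : ∀ e ∈ M, x ∈ L e)
    (hsub : ∀ e ∈ S, L' e ⊆ L e)
    (hL' : ∀ e ∈ S \ M, ∀ f ∈ M, ∀ w, Inc p q w e → Inc p q w f → x ∉ L' e)
    (h : ∃ f : E → ℕ, (∀ e ∈ S \ M, f e ∈ L' e) ∧
      ∀ e ∈ S \ M, ∀ g ∈ S \ M, e ≠ g → ∀ w, Inc p q w e → Inc p q w g → f e ≠ f g) :
    ∃ f : E → ℕ, (∀ e ∈ S, f e ∈ L e) ∧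
      ∀ e ∈ S, ∀ g ∈ S, e ≠ g → ∀ w, Inc p q w e → Inc p q w g → f e ≠ f g := by
  obtain ⟨f, hf1, hf2⟩ := h
  refine ⟨fun e => if e ∈ M then x else f e, ?_, ?_⟩
  · intro e he
    by_cases h : e ∈ M
    · simp only [h, if_true]
      exact hx e h
    · simp only [h, if_false]
      exact hsub e he (hf1 e (mem_sdiff.2 ⟨he, h⟩))
  · intro e he g hg hne w hwe hwg
    by_cases h : e ∈ M
    · by_cases h' : g ∈ M
      · exact absurd (hM e h g h' w hwe hwg) hne
      · simp only [h, h', if_true, if_false]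
        intro h2
        have h3 := hf1 g (mem_sdiff.2 ⟨hg, h'⟩)
        rw [← h2] at h3
        exact hL' g (mem_sdiff.2 ⟨hg, h'⟩) e h w hwg hwe h3
    · by_cases h' : g ∈ M
      · simp only [h, h', if_true, if_false]
        intro h2
        have h3 := hf1 e (mem_sdiff.2 ⟨he, h⟩)
        rw [h2] at h3
        exact hL' e (mem_sdiff.2 ⟨he, h⟩) g h' w hwe hwg h3
      · simp only [h, h', if_false]
        exact hf2 e (mem_sdiff.2 ⟨he, h⟩) g (mem_sdiff.2 ⟨hg, h'⟩) hne w hwe hwg

end

end Pool.Agent.H8.Cwb
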