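import Pool.Agent.H8.Cwb.Block

/-!
# Simple graphs
-/

set_option autoImplicit false

namespace Pool.Agent.H8.Cwb

open Finset

section

variable {V : Type} (G : SimpleGraph V)

/-- The edges with the property `P` form a bipartite graph. -/
def BipEdges (P : G.edgeSet → Prop) : Prop :=
  (SimpleGraph.fromEdgeSet {e : Sym2 V | ∃ h : e ∈ G.edgeSet, P ⟨e, h⟩}).Colorable 2

/-- the ends of the edges -/
noncomputable def sOf (e : G.edgeSet) : V := (Quot.out e.1).1

/-- the ends of the edges -/
noncomputable def tOf (e : G.edgeSet) : V := (Quot.out e.1).2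

variable {G}

theorem ends_eq (e : G.edgeSet) : (e : Sym2 V) = s(sOf G e, tOf G e) := by
  have := Quot.out_eq e.1
  exact this.symm

theorem sOf_ne (e : G.edgeSet) : sOf G e ≠ tOf G e := by
  have h := e.2
  rw [ends_eq e, SimpleGraph.mem_edgeSet] at h
  exact h.ne

theorem mem_iff (e : G.edgeSet) (w : V) :
    w ∈ (e : Sym2 V) ↔ (sOf G e = w ∨ tOf G e = w) := by
  rw [ends_eq e, Sym2.mem_iff]
  constructor
  · rintro (h | h)
    · exact Or.inl h.symm
    · exact Or.inr h.symm
  · rintro (h | h)
    · exact Or.inl h.symm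
    · exact Or.inr h.symm

theorem bip_of (P : G.edgeSet → Prop) (h : BipEdges G P) : Bip (sOf G) (tOf G) {e | P e} := by
  classical
  obtain ⟨C⟩ := h
  refine ⟨fun v => decide (C v = 0), fun e he => ?_⟩
  have hadj : (SimpleGraph.fromEdgeSet {e : Sym2 V | ∃ h : e ∈ G.edgeSet, P ⟨e, h⟩}).Adj
      (sOf G e) (tOf G e) := by
    rw [SimpleGraph.fromEdgeSet_adj]
    refine ⟨?_, sOf_ne e⟩
    have h1 : s(sOf G e, tOf G e) = e.1 := (ends_eq e).symm
    rw [h1]
    exact ⟨e.2, he⟩
  have h2 := C.valid hadj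
  intro h3
  apply h2
  have h4 : (C (sOf G e) = 0) ↔ (C (tOf G e) = 0) := by
    have := congrArg (· = true) h3
    simpa using this
  have h5 : ∀ i : Fin 2, i = 0 ∨ i = 1 := by decide
  rcases h5 (C (sOf G e)) with h6 | h6
  · rw [h6, h4.1 h6]
  · rcases h5 (C (tOf G e)) with h7 | h7
    · rw [h7, h4.2 h7]
    · rw [h6, h7]

theorem simple [Finite V] (k : ℕ)
    (hk : G.lineGraph.Colorable k ∨ (Even k ∧ ∀ v, (G.neighborSet v).ncard ≤ k)) (N : ℕ)
    (L : G.edgeSet → Finset ℕ) (h1 : ∀ e, k ≤ (L e).card)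
    (h2 : ∀ e, k ≤ ((L e).filter fun x => x < N).card + 2)
    (hb : ∀ x < N, BipEdges G fun e => x ∈ L e ∧ ∃ y ∈ L e, x < y)
    (hb2 : ∀ x y, x ≠ y → BipEdges G fun e => ((L e).filter fun z => N ≤ z) = {x, y}) :
    ∃ f : G.edgeSet → ℕ, (∀ e, f e ∈ L e) ∧ ∀ e e', G.lineGraph.Adj e e' → f e ≠ f e' := by
  classical
  have hcond : DegCond (sOf G) (tOf G) k := by
    rcases hk with ⟨⟨c⟩⟩ | ⟨hk, hdeg⟩
    · refine degCond_of_proper _ _ k (fun e => (c e : ℕ)) (fun e => (c e).2) ?_
      intro e f hne w he hf h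
      refine c.valid (SimpleGraph.lineGraph_adj_iff_exists.2
        ⟨hne, w, (mem_iff e w).2 he, (mem_iff f w).2 hf⟩) (Fin.ext h)
    · refine ⟨fun v => ?_, Or.inl hk⟩
      refine le_trans ?_ (hdeg v)
      unfold deg
      apply Set.ncard_le_ncard_of_injOn (fun e => if sOf G e = v then tOf G e else sOf G e)
      · intro e he
        have hadj : G.Adj (sOf G e) (tOf G e) := by
          have h := e.2
          rwa [ends_eq e, SimpleGraph.mem_edgeSet] at h
        by_cases h : sOf G e = v
        · have h3 : (if sOf G e = v then tOf G e else sOf G e) = tOf G e := if_pos h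
          rw [SimpleGraph.mem_neighborSet, h3, ← h]
          exact hadj
        · have h3 : (if sOf G e = v then tOf G e else sOf G e) = sOf G e := if_neg h
          rw [SimpleGraph.mem_neighborSet, h3, ← he.resolve_left h]
          exact hadj.symm
      · intro e he f hf h
        have key : ∀ e : G.edgeSet, (sOf G e = v ∨ tOf G e = v) →
            e.1 = s(v, if sOf G e = v then tOf G e else sOf G e) := by
          intro e he
          by_cases h : sOf G e = v
          · rw [if_pos h, ← h]
            exact ends_eq e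
          · rw [if_neg h, ← he.resolve_left h, Sym2.eq_swap]
            exact ends_eq e
        apply Subtype.ext
        rw [key e he, key f hf]
        have h' : (if sOf G e = v then tOf G e else sOf G e) =
          (if sOf G f = v then tOf G f else sOf G f) := h
        rw [h']
  obtain ⟨f, hf1, hf2⟩ := uniform (sOf G) (tOf G) sOf_ne k hcond N L h1 h2
    ⟨fun x hx => bip_of _ (hb x hx), fun x y hxy => bip_of _ (hb2 x y hxy)⟩
  refine ⟨f, hf1, fun e e' hadj => ?_⟩
  obtain ⟨hne, w, h3, h4⟩ := SimpleGraph.lineGraph_adj_iff_exists.1 hadj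
  exact hf2 e e' hne w ((mem_iff e w).1 h3) ((mem_iff e' w).1 h4)

end

end Pool.Agent.H8.Cwb
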