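import Mathlib

/-!
# Stable matchings and list colourings of the edges of a multigraph with preferences

The edge `e` joins `p e` and `q e`; its rank is `a e` at `p e` and `b e` at `q e`.
-/

set_option autoImplicit false

namespace Pool.Agent.H8.Cwb

open Finset

section

variable {V E : Type} [DecidableEq V] (p q : E → V) (a b : E → ℕ)

/-- the edge `e` contains the vertex `w` -/
def Inc (w : V) (e : E) : Prop := p e = w ∨ q e = w

instance (w : V) (e : E) : Decidable (Inc p q w e) := by
  unfold Inc
  infer_instance

/-- the rank of `e` at `w` -/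
def lab (w : V) (e : E) : ℕ := if p e = w then a e else b e

/-- the number of the edges of `S` which are better than `e` -/
def od (S : Finset E) (e : E) : ℕ :=
  (S.filter fun f => Inc p q (p e) f ∧ lab p a b (p e) f < lab p a b (p e) e).card +
  (S.filter fun f => Inc p q (q e) f ∧ lab p a b (q e) f < lab p a b (q e) e).card

variable {p q a b}

/-- **Stable matchings.** -/
theorem stable [DecidableEq E]
    (hl : ∀ w e f, Inc p q w e → Inc p q w f → lab p a b w e = lab p a b w f → e = f)
    (side : V → Bool) : ∀ (n : ℕ) (S : Finset E), S.card = n →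
    (∀ e ∈ S, side (p e) ≠ side (q e)) →
    ∃ M ⊆ S, (∀ e ∈ M, ∀ f ∈ M, ∀ w, Inc p q w e → Inc p q w f → e = f) ∧
      ∀ e ∈ S, e ∉ M → ∃ w, ∃ f ∈ M, Inc p q w e ∧ Inc p q w f ∧
        lab p a b w f < lab p a b w e := by
  intro n
  induction n with
  | zero =>
    intro S hS _
    rw [card_eq_zero] at hS
    subst hS
    exact ⟨∅, Subset.refl _, by simp, by simp⟩
  | succ n ih =>
    intro S hS hside
    let ls : E → V := fun e => if side (p e) then p e else q e
    let rs : E → V := fun e => if side (p e) then q e else p e
    have hls : ∀ e ∈ S, side (ls e) = true := by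
      intro e he
      have := hside e he
      simp only [ls]
      by_cases h : side (p e) = true
      · simp [h]
      · simp only [Bool.not_eq_true] at h
        rw [h] at this ⊢
        simp only [Bool.false_eq_true, if_false]
        cases h2 : side (q e)
        · rw [h2] at this
          exact absurd rfl this
        · rfl
    have hrs : ∀ e ∈ S, side (rs e) = false := by
      intro e he
      have := hside e he
      simp only [rs]
      by_cases h : side (p e) = true
      · rw [h] at this ⊢
        simp only [if_true]
        cases h2 : side (q e)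
        · rfl
        · rw [h2] at this
          exact absurd rfl this
      · simp only [Bool.not_eq_true] at h
        simp [h]
    have hinc : ∀ w e, Inc p q w e ↔ (w = ls e ∨ w = rs e) := by
      intro w e
      simp only [Inc, ls, rs]
      by_cases h : side (p e) = true
      · simp only [h, if_true]
        constructor
        · rintro (h1 | h1)
          · exact Or.inl h1.symm
          · exact Or.inr h1.symm
        · rintro (h1 | h1)
          · exact Or.inl h1.symm
          · exact Or.inr h1.symm
      · simp only [h]
        constructor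
        · rintro (h1 | h1)
          · exact Or.inr h1.symm
          · exact Or.inl h1.symm
        · rintro (h1 | h1)
          · exact Or.inr h1.symm
          · exact Or.inl h1.symm
    have il : ∀ e, Inc p q (ls e) e := fun e => (hinc _ _).2 (Or.inl rfl)
    have ir : ∀ e, Inc p q (rs e) e := fun e => (hinc _ _).2 (Or.inr rfl)
    have hleft : ∀ w e, e ∈ S → side w = true → Inc p q w e → ls e = w := by
      intro w e he hw h
      rcases (hinc w e).1 h with h1 | h1
      · exact h1.symm
      · rw [h1, hrs e he] at hw
        exact absurd hw (by simp)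
    have hright : ∀ w e, e ∈ S → side w = false → Inc p q w e → rs e = w := by
      intro w e he hw h
      rcases (hinc w e).1 h with h1 | h1
      · rw [h1, hls e he] at hw
        exact absurd hw (by simp)
      · exact h1.symm
    -- the favourites of the left vertices
    let F : Finset E := S.filter fun e => ∀ f ∈ S, ls f = ls e →
      lab p a b (ls e) e ≤ lab p a b (ls e) f
    have hF : ∀ e ∈ F, e ∈ S ∧ ∀ f ∈ S, ls f = ls e → lab p a b (ls e) e ≤ lab p a b (ls e) f :=
      fun e he => mem_filter.1 he
    have hFl : ∀ e ∈ F, ∀ f ∈ F, ls e = ls f → e = f := by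
      intro e he f hf h
      have h1 := (hF e he).2 f (hF f hf).1 h.symm
      have h2 := (hF f hf).2 e (hF e he).1 h
      rw [h] at h1
      exact hl (ls f) e f (by rw [← h]; exact il e) (il f) (le_antisymm h1 h2)
    by_cases hinj : ∀ e ∈ F, ∀ f ∈ F, rs e = rs f → e = f
    · refine ⟨F, filter_subset _ _, ?_, ?_⟩
      · intro e he f hf w h1 h2
        have heS := (hF e he).1
        have hfS := (hF f hf).1
        cases hw : side w
        · exact hinj e he f hf ((hright w e heS hw h1).trans (hright w f hfS hw h2).symm)
        · exact hFl e he f hf ((hleft w e heS hw h1).trans (hleft w f hfS hw h2).symm)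
      · intro e he heF
        -- the favourite at the left end
        obtain ⟨g, hg, hmin⟩ := exists_min_image (S.filter fun f => ls f = ls e)
          (fun f => lab p a b (ls e) f) ⟨e, mem_filter.2 ⟨he, rfl⟩⟩
        rw [mem_filter] at hg
        have hgF : g ∈ F := by
          refine mem_filter.2 ⟨hg.1, ?_⟩
          intro f hf hfg
          rw [hg.2]
          exact hmin f (mem_filter.2 ⟨hf, hfg.trans hg.2⟩)
        have hle := hmin e (mem_filter.2 ⟨he, rfl⟩)
        have hgi : Inc p q (ls e) g := by
          rw [← hg.2]
          exact il g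
        refine ⟨ls e, g, hgF, il e, hgi, lt_of_le_of_ne hle ?_⟩
        intro h
        have := hl (ls e) g e hgi (il e) h
        rw [← this] at heF
        exact heF hgF
    · push Not at hinj
      obtain ⟨e, he, f, hf, hr, hne⟩ := hinj
      have key : ∀ e ∈ F, ∀ f ∈ F, rs e = rs f → e ≠ f →
          lab p a b (rs f) e < lab p a b (rs f) f →
          ∃ M ⊆ S, (∀ e ∈ M, ∀ f ∈ M, ∀ w, Inc p q w e → Inc p q w f → e = f) ∧
            ∀ e ∈ S, e ∉ M → ∃ w, ∃ f ∈ M, Inc p q w e ∧ Inc p q w f ∧
              lab p a b w f < lab p a b w e := by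
        intro e he f hf hr hne hlt
        obtain ⟨M, hMS, hM1, hM2⟩ := ih (S.erase f)
          (by rw [card_erase_of_mem (hF f hf).1, hS]; rfl)
          (fun g hg => hside g (mem_of_mem_erase hg))
        refine ⟨M, hMS.trans (erase_subset _ _), hM1, ?_⟩
        intro g hg hgM
        by_cases hgf : g = f
        · subst hgf
          have heS : e ∈ S.erase g := mem_erase.2 ⟨hne, (hF e he).1⟩
          by_cases heM : e ∈ M
          · exact ⟨rs g, e, heM, ir g, by rw [← hr]; exact ir e, hlt⟩
          · obtain ⟨w, h, hhM, hwe, hwh, hlt2⟩ := hM2 e heS heM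
            have hhS : h ∈ S := mem_of_mem_erase (hMS hhM)
            cases hw : side w
            · have hwr := hright w e (hF e he).1 hw hwe
              rw [← hwr, hr] at hlt2 hwh
              exact ⟨rs g, h, hhM, ir g, hwh, hlt2.trans hlt⟩
            · have hwl := hleft w e (hF e he).1 hw hwe
              have hwl2 := hleft w h hhS hw hwh
              have := (hF e he).2 h hhS (hwl2.trans hwl.symm)
              rw [hwl] at this
              exact absurd hlt2 (not_lt.2 this)
        · exact hM2 g (mem_erase.2 ⟨hgf, hg⟩) hgM
      rcases lt_trichotomy (lab p a b (rs f) e) (lab p a b (rs f) f) with h | h | h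
      · exact key e he f hf hr hne h
      · exact absurd (hl (rs f) e f (by rw [← hr]; exact ir e) (ir f) h) hne
      · refine key f hf e he hr.symm hne.symm ?_
        rw [hr]
        exact h

/-- **List colourings by stable matchings**, when for each colour the edges with this colour in
their lists form a bipartite graph. -/
theorem colour [DecidableEq E]
    (hl : ∀ w e f, Inc p q w e → Inc p q w f → lab p a b w e = lab p a b w f → e = f) :
    ∀ (n : ℕ) (S : Finset E) (L : E → Finset ℕ), S.card = n →
    (∀ x, ∃ side : V → Bool, ∀ e ∈ S, x ∈ L e → side (p e) ≠ side (q e)) →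
    (∀ e ∈ S, od p q a b S e < (L e).card) →
    ∃ f : E → ℕ, (∀ e ∈ S, f e ∈ L e) ∧
      ∀ e ∈ S, ∀ g ∈ S, e ≠ g → ∀ w, Inc p q w e → Inc p q w g → f e ≠ f g := by
  intro n
  induction n using Nat.strong_induction_on with
  | _ n ih =>
    intro S L hS hb hod
    rcases S.eq_empty_or_nonempty with rfl | ⟨e0, he0⟩
    · exact ⟨fun _ => 0, by simp, by simp⟩
    obtain ⟨x, hx⟩ : (L e0).Nonempty := card_pos.1 (lt_of_le_of_lt (Nat.zero_le _) (hod e0 he0))
    obtain ⟨side, hside⟩ := hb x
    obtain ⟨M, hMS, hM1, hM2⟩ := stable hl side _ (S.filter fun e => x ∈ L e) rfl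
      (fun e he => hside e (mem_filter.1 he).1 (mem_filter.1 he).2)
    have hMsub : M ⊆ S := hMS.trans (filter_subset _ _)
    have hMne : M.Nonempty := by
      by_contra h
      rw [not_nonempty_iff_eq_empty] at h
      subst h
      obtain ⟨w, f, hf, -⟩ := hM2 e0 (mem_filter.2 ⟨he0, hx⟩) (notMem_empty _)
      exact notMem_empty _ hf
    have hcard : (S \ M).card < n := by
      rw [← hS]
      apply card_lt_card
      rw [ssubset_iff_subset_ne]
      refine ⟨sdiff_subset, ?_⟩
      intro h
      obtain ⟨e, he⟩ := hMne
      have : e ∈ S \ M := by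
        rw [h]
        exact hMsub he
      exact (mem_sdiff.1 this).2 he
    obtain ⟨f, hf1, hf2⟩ := ih _ hcard (S \ M) (fun e => (L e).erase x) rfl (by
      intro y
      obtain ⟨side', hside'⟩ := hb y
      exact ⟨side', fun e he hy => hside' e (mem_sdiff.1 he).1 (mem_of_mem_erase hy)⟩) (by
      intro e he
      have heS := (mem_sdiff.1 he).1
      have h1 := hod e heS
      have hm1 : ((S \ M).filter fun f => Inc p q (p e) f ∧
          lab p a b (p e) f < lab p a b (p e) e) ⊆
          (S.filter fun f => Inc p q (p e) f ∧ lab p a b (p e) f < lab p a b (p e) e) :=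
        filter_subset_filter _ sdiff_subset
      have hm2 : ((S \ M).filter fun f => Inc p q (q e) f ∧
          lab p a b (q e) f < lab p a b (q e) e) ⊆
          (S.filter fun f => Inc p q (q e) f ∧ lab p a b (q e) f < lab p a b (q e) e) :=
        filter_subset_filter _ sdiff_subset
      by_cases hxe : x ∈ L e
      · rw [card_erase_of_mem hxe]
        obtain ⟨w, g, hgM, hwe, hwg, hlt⟩ := hM2 e (mem_filter.2 ⟨heS, hxe⟩) (mem_sdiff.1 he).2
        have : od p q a b (S \ M) e < od p q a b S e := by
          unfold od
          rcases hwe with rfl | rfl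
          · have h2 := card_lt_card ((ssubset_iff_of_subset hm1).2
              ⟨g, mem_filter.2 ⟨hMsub hgM, hwg, hlt⟩, fun h =>
                (mem_sdiff.1 (mem_filter.1 h).1).2 hgM⟩)
            have h3 := card_le_card hm2
            omega
          · have h2 := card_lt_card ((ssubset_iff_of_subset hm2).2
              ⟨g, mem_filter.2 ⟨hMsub hgM, hwg, hlt⟩, fun h =>
                (mem_sdiff.1 (mem_filter.1 h).1).2 hgM⟩)
            have h3 := card_le_card hm1
            omega
        omega
      · rw [erase_eq_of_notMem hxe]
        refine lt_of_le_of_lt ?_ h1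
        unfold od
        have h2 := card_le_card hm1
        have h3 := card_le_card hm2
        omega)
    refine ⟨fun e => if e ∈ M then x else f e, ?_, ?_⟩
    · intro e he
      by_cases h : e ∈ M
      · simp only [h, if_true]
        exact (mem_filter.1 (hMS h)).2
      · simp only [h, if_false]
        exact mem_of_mem_erase (hf1 e (mem_sdiff.2 ⟨he, h⟩))
    · intro e he g hg hne w hwe hwg
      by_cases h : e ∈ M
      · by_cases h' : g ∈ M
        · exact absurd (hM1 e h g h' w hwe hwg) hne
        · simp only [h, h', if_true, if_false]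
          intro h2
          have h3 := hf1 g (mem_sdiff.2 ⟨hg, h'⟩)
          rw [← h2] at h3
          exact (mem_erase.1 h3).1 rfl
      · by_cases h' : g ∈ M
        · simp only [h, h', if_true, if_false]
          intro h2
          have h3 := hf1 e (mem_sdiff.2 ⟨he, h⟩)
          rw [h2] at h3
          exact (mem_erase.1 h3).1 rfl
        · simp only [h, h', if_false]
          exact hf2 e (mem_sdiff.2 ⟨he, h⟩) g (mem_sdiff.2 ⟨hg, h'⟩) hne w hwe hwg

/-- The number of the better edges, from the ranks. -/
theorem od_le [DecidableEq E]
    (hl : ∀ w e f, Inc p q w e → Inc p q w f → lab p a b w e = lab p a b w f → e = f)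
    (hpq : ∀ e, p e ≠ q e) (ha : ∀ e, 1 ≤ a e) (hb : ∀ e, 1 ≤ b e) (S : Finset E) (e : E) :
    od p q a b S e ≤ (a e - 1) + (b e - 1) := by
  have hpos : ∀ w f, 1 ≤ lab p a b w f := by
    intro w f
    unfold lab
    split_ifs
    · exact ha f
    · exact hb f
  have key : ∀ w, (S.filter fun f => Inc p q w f ∧ lab p a b w f < lab p a b w e).card ≤
      lab p a b w e - 1 := by
    intro w
    have h1 : (Finset.Ico 1 (lab p a b w e)).card = lab p a b w e - 1 := Nat.card_Ico _ _
    rw [← h1]
    apply card_le_card_of_injOn (fun f => lab p a b w f)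
    · intro f hf
      have hf' := mem_filter.1 (mem_coe.1 hf)
      exact mem_coe.2 (mem_Ico.2 ⟨hpos w f, hf'.2.2⟩)
    · intro f hf g hg h
      exact hl w f g (mem_filter.1 (mem_coe.1 hf)).2.1 (mem_filter.1 (mem_coe.1 hg)).2.1 h
  have e1 : lab p a b (p e) e = a e := by
    unfold lab
    rw [if_pos rfl]
  have e2 : lab p a b (q e) e = b e := by
    unfold lab
    rw [if_neg (hpq e)]
  unfold od
  have k1 := key (p e)
  have k2 := key (q e)
  rw [e1] at k1
  rw [e2] at k2
  rw [e1, e2]
  omega

end

end Pool.Agent.H8.Cwb
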